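import Pool.Agent.Helper64_Refl.Bas

/-!
# The two ends of an edge (module ENDS)
-/

namespace Pool.Agent.Refl.H64

open Matrix Pool.Agent.Refl

variable {G : M4}

/-- hypotheses on an adapted frame -/
structure Frame (G : M4) (A B o w : R4) (g : ℝ) : Prop where
  AA : br G A A = 1
  BB : br G B B = 1
  AB : br G A B = -g
  g2 : g ^ 2 < 1
  oo : br G o o = -1
  oA : br G o A = 0
  oB : br G o B = 0
  ww : br G w w = 1
  wA : br G w A = 0
  wB : br G w B = 0
  wo : br G w o = 0

lemma Frame.zero (hL : Lat G) {A B o w : R4} {g : ℝ} (h : Frame G A B o w g) {y : R4}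
    (hA : br G y A = 0) (hB : br G y B = 0) (ho : br G y o = 0) (hw : br G y w = 0) : y = 0 := by
  have hs := br_comm hL.symm
  by_contra hy
  have hyy := pos_of_orth hL.sig (O := o) (by rw [h.oo]; norm_num) ho hy
  obtain ⟨c, hc0, hc⟩ := dep5 ![A, B, o, w, y]
  apply hc0
  rw [Fin.sum_univ_five] at hc
  simp only [Matrix.cons_val_zero, Matrix.cons_val_one, Matrix.cons_val] at hc
  have hin : ∀ z : R4, c 0 * br G A z + c 1 * br G B z + c 2 * br G o z + c 3 * br G w z
      + c 4 * br G y z = 0 := by
    intro z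
    have := congrArg (fun t => br G t z) hc
    simp only [br_add_left, br_smul_left, br_zero_left] at this
    exact this
  have e1 := hin A
  have e2 := hin B
  have e3 := hin o
  have e4 := hin w
  have e5 := hin y
  rw [h.AA, hs B A, h.AB, h.oA, h.wA, hA] at e1
  rw [h.AB, h.BB, h.oB, h.wB, hB] at e2
  rw [hs A o, h.oA, hs B o, h.oB, h.oo, h.wo, ho] at e3
  rw [hs A w, h.wA, hs B w, h.wB, hs o w, h.wo, h.ww, hw] at e4
  rw [hs A y, hA, hs B y, hB, hs o y, ho, hs w y, hw] at e5
  have c2 : c 2 = 0 := by linarith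
  have c3 : c 3 = 0 := by linarith
  have c4 : c 4 = 0 := by
    have : c 4 * br G y y = 0 := by linarith
    rcases mul_eq_zero.1 this with h' | h'
    · exact h'
    · exact absurd h' hyy.ne'
  have hg := h.g2
  have c0 : c 0 * (1 - g ^ 2) = 0 := by
    have f1 : c 0 = c 1 * g := by linarith
    have f2 : c 1 = c 0 * g := by linarith
    rw [f2] at f1
    linear_combination f1
  have c0' : c 0 = 0 := by
    rcases mul_eq_zero.1 c0 with h' | h'
    · exact h'
    · exact absurd h' (by linarith [sub_pos.2 hg])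
  have c1' : c 1 = 0 := by
    have f2 : c 1 = c 0 * g := by linarith
    rw [f2, c0', zero_mul]
  ext i
  fin_cases i
  · exact c0'
  · exact c1'
  · exact c2
  · exact c3
  · exact c4

lemma Frame.parseval (hL : Lat G) {A B o w : R4} {g : ℝ} (h : Frame G A B o w g) (x y : R4) :
    br G x y = (br G x A * br G y A + br G x B * br G y B +
      g * (br G x A * br G y B + br G x B * br G y A)) / (1 - g ^ 2)
      - br G x o * br G y o + br G x w * br G y w := by
  have hs := br_comm hL.symm
  have hg : (1 - g ^ 2) ≠ 0 := (sub_pos.2 h.g2).ne'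
  set al := (br G y A + g * br G y B) / (1 - g ^ 2) with hal
  set be := (br G y B + g * br G y A) / (1 - g ^ 2) with hbe
  have hz : y - al • A - be • B + (br G y o) • o - (br G y w) • w = 0 := by
    apply h.zero hL
    · simp only [br_sub_left, br_add_left, br_smul_left]
      rw [h.AA, hs B A, h.AB, h.oA, h.wA, hal, hbe]
      field_simp
      ring
    · simp only [br_sub_left, br_add_left, br_smul_left]
      rw [h.AB, h.BB, h.oB, h.wB, hal, hbe]
      field_simp
      ring
    · simp only [br_sub_left, br_add_left, br_smul_left]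
      rw [hs A o, h.oA, hs B o, h.oB, h.oo, h.wo]
      ring
    · simp only [br_sub_left, br_add_left, br_smul_left]
      rw [hs A w, h.wA, hs B w, h.wB, hs o w, h.wo, h.ww]
      ring
  have h1 := congrArg (fun t => br G x t) hz
  simp only [br_sub_right, br_add_right, br_smul_right, br_zero_right] at h1
  have h2 : br G x y = al * br G x A + be * br G x B - br G y o * br G x o
      + br G y w * br G x w := by linarith
  rw [h2, hal, hbe]
  field_simp
  ring

/-- the abstract computation: two vectors `k`, `l`, and two vertex vectors `V`, `W` -/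
lemma ends_abs (hL : Lat G) {A B o w : R4} {g : ℝ} (h : Frame G A B o w g) {k l V W : R4}
    (hkk : br G k k = 1) (hll : br G l l = 1)
    (hVA : br G V A = 0) (hVB : br G V B = 0) (hVo : br G V o < 0) (hVk : br G V k = 0)
    (hVl : br G V l < 0)
    (hWA : br G W A = 0) (hWB : br G W B = 0) (hWo : br G W o < 0) (hWl : br G W l = 0)
    (hWk : br G W k < 0) :
    -br G k l = br G k o * br G l o +
      Real.sqrt (1 - (br G k A ^ 2 + br G k B ^ 2 + 2 * g * (br G k A * br G k B)) / (1 - g ^ 2)
        + br G k o ^ 2) *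
      Real.sqrt (1 - (br G l A ^ 2 + br G l B ^ 2 + 2 * g * (br G l A * br G l B)) / (1 - g ^ 2)
        + br G l o ^ 2)
      - (br G k A * br G l A + br G k B * br G l B +
        g * (br G k A * br G l B + br G k B * br G l A)) / (1 - g ^ 2) := by
  have p1 := h.parseval hL k k
  have p2 := h.parseval hL l l
  have p3 := h.parseval hL k l
  have q1 := h.parseval hL V k
  have q2 := h.parseval hL V l
  have q3 := h.parseval hL W k
  have q4 := h.parseval hL W l
  rw [hkk] at p1
  rw [hll] at p2
  rw [hVk, hVA, hVB] at q1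
  rw [hVA, hVB] at q2
  rw [hWA, hWB] at q3
  rw [hWl, hWA, hWB] at q4
  have hg : (1 - g ^ 2) ≠ 0 := (sub_pos.2 h.g2).ne'
  set yk := br G k o
  set yl := br G l o
  set bk := br G k w
  set bl := br G l w
  set a := br G V o
  set b := br G V w
  set a' := br G W o
  set b' := br G W w
  have e1 : 1 - (br G k A ^ 2 + br G k B ^ 2 + 2 * g * (br G k A * br G k B)) / (1 - g ^ 2)
        + yk ^ 2 = bk ^ 2 := by
    have : (br G k A * br G k A + br G k B * br G k B +
      g * (br G k A * br G k B + br G k B * br G k A)) =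
      br G k A ^ 2 + br G k B ^ 2 + 2 * g * (br G k A * br G k B) := by ring
    rw [this] at p1
    linarith
  have e2 : 1 - (br G l A ^ 2 + br G l B ^ 2 + 2 * g * (br G l A * br G l B)) / (1 - g ^ 2)
        + yl ^ 2 = bl ^ 2 := by
    have : (br G l A * br G l A + br G l B * br G l B +
      g * (br G l A * br G l B + br G l B * br G l A)) =
      br G l A ^ 2 + br G l B ^ 2 + 2 * g * (br G l A * br G l B) := by ring
    rw [this] at p2
    linarith
  have r1 : b * bk = a * yk := by
    have : (0 * br G k A + 0 * br G k B + g * (0 * br G k B + 0 * br G k A)) = (0 : ℝ) := by ring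
    rw [this, zero_div] at q1
    linarith
  have r2 : b * bl < a * yl := by
    have : (0 * br G l A + 0 * br G l B + g * (0 * br G l B + 0 * br G l A)) = (0 : ℝ) := by ring
    rw [this, zero_div] at q2
    linarith
  have r3 : b' * bk < a' * yk := by
    have : (0 * br G k A + 0 * br G k B + g * (0 * br G k B + 0 * br G k A)) = (0 : ℝ) := by ring
    rw [this, zero_div] at q3
    linarith
  have r4 : b' * bl = a' * yl := by
    have : (0 * br G l A + 0 * br G l B + g * (0 * br G l B + 0 * br G l A)) = (0 : ℝ) := by ring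
    rw [this, zero_div] at q4
    linarith
  have hneg : bk * bl ≤ 0 := by
    by_contra hcon
    push Not at hcon
    rcases pos_and_pos_or_neg_and_neg_of_mul_pos hcon with ⟨hk, hl⟩ | ⟨hk, hl⟩
    · -- b*bl*bk < a*yl*bk, = a*yk*bl
      have f1 : b * bl * bk < a * yl * bk := mul_lt_mul_of_pos_right r2 hk
      have f2 : b' * bk * bl < a' * yk * bl := mul_lt_mul_of_pos_right r3 hl
      have f3 : a * (yk * bl - yl * bk) < 0 := by
        have : b * bl * bk = a * yk * bl := by rw [mul_right_comm, r1]
        nlinarith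
      have f4 : a' * (yl * bk - yk * bl) < 0 := by
        have : b' * bk * bl = a' * yl * bk := by rw [mul_right_comm, r4]
        nlinarith
      have f5 : 0 < yk * bl - yl * bk := by
        by_contra h'
        push Not at h'
        have := mul_nonneg_of_nonpos_of_nonpos hVo.le h'
        linarith
      have f6 : 0 < yl * bk - yk * bl := by
        by_contra h'
        push Not at h'
        have := mul_nonneg_of_nonpos_of_nonpos hWo.le h'
        linarith
      linarith
    · have f1 : a * yl * bk < b * bl * bk := mul_lt_mul_of_neg_right r2 hk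
      have f2 : a' * yk * bl < b' * bk * bl := mul_lt_mul_of_neg_right r3 hl
      have f3 : a * (yl * bk - yk * bl) < 0 := by
        have : b * bl * bk = a * yk * bl := by rw [mul_right_comm, r1]
        nlinarith
      have f4 : a' * (yk * bl - yl * bk) < 0 := by
        have : b' * bk * bl = a' * yl * bk := by rw [mul_right_comm, r4]
        nlinarith
      have f5 : 0 < yl * bk - yk * bl := by
        by_contra h'
        push Not at h'
        have := mul_nonneg_of_nonpos_of_nonpos hVo.le h'
        linarith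
      have f6 : 0 < yk * bl - yl * bk := by
        by_contra h'
        push Not at h'
        have := mul_nonneg_of_nonpos_of_nonpos hWo.le h'
        linarith
      linarith
  rw [e1, e2, Real.sqrt_sq_eq_abs, Real.sqrt_sq_eq_abs, ← abs_mul, abs_of_nonpos hneg, p3]
  ring

/-- normalized root -/
noncomputable def nv (G : M4) (a : Z4) : R4 := (Real.sqrt (bz G a a))⁻¹ • up a

/-- normalized base point -/
noncomputable def nO (G : M4) (O : R4) : R4 := (Real.sqrt (-(br G O O)))⁻¹ • O

lemma nv_nv (a b : Z4) : br G (nv G a) (nv G b) = -gR G a b := by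
  rw [nv, nv, br_smul_left, br_smul_right, br_up, gR]
  rw [neg_div, neg_neg, div_eq_mul_inv, mul_inv]
  ring

lemma nO_nv (O : R4) (a : Z4) : br G (nO G O) (nv G a) = -sR G O a := by
  rw [nv, nO, br_smul_left, br_smul_right, sR]
  rw [neg_div, neg_neg, div_eq_mul_inv, mul_inv]
  ring

lemma gR_self {a : Z4} (ha : 0 < bz G a a) : gR G a a = -1 := by
  have h : (0 : ℝ) < bz G a a := by exact_mod_cast ha
  rw [gR, Real.mul_self_sqrt h.le, neg_div, div_self h.ne']

lemma gR_comm (hG : G.transpose = G) (a b : Z4) : gR G a b = gR G b a := by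
  rw [gR, gR, bz_comm hG a b, mul_comm (Real.sqrt _)]

lemma nO_nO {O : R4} (hO : br G O O < 0) : br G (nO G O) (nO G O) = -1 := by
  rw [nO, br_smul_left, br_smul_right]
  have h : 0 < -(br G O O) := by linarith
  have h2 : Real.sqrt (-(br G O O)) * Real.sqrt (-(br G O O)) = -(br G O O) :=
    Real.mul_self_sqrt h.le
  have h3 : Real.sqrt (-(br G O O)) ≠ 0 := (Real.sqrt_pos.2 h).ne'
  field_simp
  nlinarith

/-- `g² < 1` from the positivity of the Gram determinant -/
lemma gR_sq_lt {a b : Z4} (ha : 0 < bz G a a) (hb : 0 < bz G b b) (h : 0 < g2 G a b) :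
    gR G a b ^ 2 < 1 := by
  have ha' : (0 : ℝ) < bz G a a := by exact_mod_cast ha
  have hb' : (0 : ℝ) < bz G b b := by exact_mod_cast hb
  have h' : (0 : ℝ) < (bz G a a : ℝ) * bz G b b - (bz G a b : ℝ) ^ 2 := by
    have : (0 : ℝ) < ((g2 G a b : ℤ) : ℝ) := by exact_mod_cast h
    rw [g2] at this
    push_cast at this
    exact this
  rw [gR, div_pow, mul_pow, Real.sq_sqrt ha'.le, Real.sq_sqrt hb'.le, neg_sq,
    div_lt_one (mul_pos ha' hb')]
  linarith

lemma Qf_nonneg {g a b : ℝ} (hg : g ^ 2 < 1) : 0 ≤ Qf g a b := by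
  rw [Qf]
  apply div_nonneg
  · have h1 : -1 ≤ g := by nlinarith
    have h2 : g ≤ 1 := by nlinarith
    nlinarith [mul_nonneg (by linarith : (0 : ℝ) ≤ 1 + g) (sq_nonneg (a + b)),
      mul_nonneg (by linarith : (0 : ℝ) ≤ 1 - g) (sq_nonneg (a - b))]
  · linarith

theorem ends (h1 : VertexPosStmt) (h2 : VertexStrictStmt) : EndsStmt := by
  intro G n e O hL hC i j k l hkl hVk hVl
  have hs := br_comm hL.symm
  have hpos := (h1 G n e O hL hC i j k hVk).1
  have ri := (hC.root i).pos
  have rj := (hC.root j).pos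
  have rk := (hC.root k).pos
  have rl := (hC.root l).pos
  obtain ⟨hij, hjk, hik, V, hV0, hVK, hVi, hVj, hVk'⟩ := hVk
  obtain ⟨-, hjl, hil, W, hW0, hWK, hWi, hWj, hWl'⟩ := hVl
  have hVs := (h2 G n e O hL hC i j k hij hjk hik V hV0 hVK hVi hVj hVk').2 l hil.symm hjl.symm
    hkl.symm
  have hWs := (h2 G n e O hL hC i j l hij hjl hil W hW0 hWK hWi hWj hWl').2 k hik.symm hjk.symm hkl
  have hVO := Cham.side hL hC i hV0 hVK
  have hWO := Cham.side hL hC i hW0 hWK
  have hg2 := gR_sq_lt ri rj hpos
  set g := gR G (e i) (e j) with hg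
  have hg' : (1 - g ^ 2) ≠ 0 := (sub_pos.2 hg2).ne'
  set A := nv G (e i) with hA
  set B := nv G (e j) with hB
  set P := nO G O with hP
  have hAA : br G A A = 1 := by rw [hA, nv_nv, gR_self ri, neg_neg]
  have hBB : br G B B = 1 := by rw [hB, nv_nv, gR_self rj, neg_neg]
  have hAB : br G A B = -g := by rw [hA, hB, nv_nv]
  have hPA : br G P A = -sR G O (e i) := nO_nv O (e i)
  have hPB : br G P B = -sR G O (e j) := nO_nv O (e j)
  have hPP : br G P P = -1 := nO_nO hC.Oneg
  set si := sR G O (e i)
  set sj := sR G O (e j)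
  have hQ0 : 0 ≤ Qf g si sj := Qf_nonneg hg2
  set q := Real.sqrt (1 + Qf g si sj) with hq
  have hq0 : 0 < q := Real.sqrt_pos.2 (by linarith)
  have hqq : q * q = 1 + Qf g si sj := Real.mul_self_sqrt (by linarith)
  set al := (si + g * sj) / (1 - g ^ 2) with hal
  set be := (sj + g * si) / (1 - g ^ 2) with hbe
  set M : R4 := P + al • A + be • B with hM
  have hMA : br G M A = 0 := by
    rw [hM, br_add_left, br_add_left, br_smul_left, br_smul_left, hPA, hAA, hs B A, hAB, hal, hbe]
    field_simp
    ring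
  have hMB : br G M B = 0 := by
    rw [hM, br_add_left, br_add_left, br_smul_left, br_smul_left, hPB, hAB, hBB, hal, hbe]
    field_simp
    ring
  have hMM : br G M M = -(q * q) := by
    have : br G M M = br G M P := by
      conv_lhs => rw [hM, br_add_right, br_add_right, br_smul_right, br_smul_right]
      rw [← hM, hMA, hMB]
      ring
    rw [this, hM, br_add_left, br_add_left, br_smul_left, br_smul_left, hPP, hs A P, hPA, hs B P,
      hPB, hqq, Qf, hal, hbe]
    field_simp
    ring
  set o : R4 := q⁻¹ • M with ho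
  have hoo : br G o o = -1 := by
    rw [ho, br_smul_left, br_smul_right, hMM]
    field_simp
  have hoA : br G o A = 0 := by rw [ho, br_smul_left, hMA, mul_zero]
  have hoB : br G o B = 0 := by rw [ho, br_smul_left, hMB, mul_zero]
  obtain ⟨w0, hw0, hwA, hwB, hwo⟩ := exists_orth3 (G := G) A B o
  have hww := pos_of_orth hL.sig (O := o) (by rw [hoo]; norm_num) hwo hw0
  set w : R4 := (Real.sqrt (br G w0 w0))⁻¹ • w0 with hw
  have hF : Frame G A B o w g := by
    refine ⟨hAA, hBB, hAB, hg2, hoo, hoA, hoB, ?_, ?_, ?_, ?_⟩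
    · rw [hw, br_smul_left, br_smul_right]
      have h3 : Real.sqrt (br G w0 w0) * Real.sqrt (br G w0 w0) = br G w0 w0 :=
        Real.mul_self_sqrt hww.le
      have h4 : Real.sqrt (br G w0 w0) ≠ 0 := (Real.sqrt_pos.2 hww).ne'
      field_simp
      nlinarith
    · rw [hw, br_smul_left, hwA, mul_zero]
    · rw [hw, br_smul_left, hwB, mul_zero]
    · rw [hw, br_smul_left, hwo, mul_zero]
  -- values at a root
  have hval : ∀ x : Fin n, br G (nv G (e x)) o =
      -Yf g (gR G (e i) (e x)) (gR G (e j) (e x)) si sj (sR G O (e x)) := by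
    intro x
    have f1 : br G (nv G (e x)) A = -gR G (e i) (e x) := by
      rw [hA, nv_nv, gR_comm hL.symm]
    have f2 : br G (nv G (e x)) B = -gR G (e j) (e x) := by
      rw [hB, nv_nv, gR_comm hL.symm]
    have f3 : br G (nv G (e x)) P = -sR G O (e x) := by
      rw [hs, hP, nO_nv]
    rw [ho, br_smul_right, hM, br_add_right, br_add_right, br_smul_right, br_smul_right,
      f1, f2, f3, Yf, hal, hbe, ← hq]
    field_simp
    ring
  have hno : ∀ U : R4, br G U (up (e i)) = 0 → br G U (up (e j)) = 0 → br G U O < 0 →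
      br G U A = 0 ∧ br G U B = 0 ∧ br G U o < 0 := by
    intro U hU1 hU2 hU3
    have f1 : br G U A = 0 := by rw [hA, nv, br_smul_right, hU1, mul_zero]
    have f2 : br G U B = 0 := by rw [hB, nv, br_smul_right, hU2, mul_zero]
    refine ⟨f1, f2, ?_⟩
    rw [ho, br_smul_right, hM, br_add_right, br_add_right, br_smul_right, br_smul_right, f1, f2,
      hP, nO, br_smul_right]
    have h3 : 0 < -(br G O O) := by linarith [hC.Oneg]
    have h4 : 0 < (Real.sqrt (-(br G O O)))⁻¹ := inv_pos.2 (Real.sqrt_pos.2 h3)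
    have h5 : 0 < q⁻¹ := inv_pos.2 hq0
    have h6 : (Real.sqrt (-(br G O O)))⁻¹ * br G U O < 0 := mul_neg_of_pos_of_neg h4 hU3
    have h7 := mul_neg_of_pos_of_neg h5 h6
    simpa using h7
  obtain ⟨v1, v2, v3⟩ := hno V hVi hVj hVO
  obtain ⟨u1, u2, u3⟩ := hno W hWi hWj hWO
  have hnv : ∀ (U : R4) (x : Fin n), br G U (nv G (e x)) =
      (Real.sqrt (bz G (e x) (e x)))⁻¹ * br G U (up (e x)) := by
    intro U x
    rw [nv, br_smul_right]
  have hsq : ∀ x : Fin n, 0 < (Real.sqrt (bz G (e x) (e x)))⁻¹ := by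
    intro x
    have : (0 : ℝ) < bz G (e x) (e x) := by exact_mod_cast (hC.root x).pos
    exact inv_pos.2 (Real.sqrt_pos.2 this)
  have key := ends_abs hL hF (k := nv G (e k)) (l := nv G (e l)) (V := V) (W := W)
    (by rw [nv_nv, gR_self rk, neg_neg]) (by rw [nv_nv, gR_self rl, neg_neg])
    v1 v2 v3 (by rw [hnv, hVk', mul_zero]) (by rw [hnv]; exact mul_neg_of_pos_of_neg (hsq l) hVs)
    u1 u2 u3 (by rw [hnv, hWl', mul_zero]) (by rw [hnv]; exact mul_neg_of_pos_of_neg (hsq k) hWs)
  have fA : ∀ x : Fin n, br G (nv G (e x)) A = -gR G (e i) (e x) := by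
    intro x
    rw [hA, nv_nv, gR_comm hL.symm]
  have fB : ∀ x : Fin n, br G (nv G (e x)) B = -gR G (e j) (e x) := by
    intro x
    rw [hB, nv_nv, gR_comm hL.symm]
  rw [nv_nv, hval, hval, fA, fA, fB, fB] at key
  simp only [neg_neg] at key
  show gR G (e k) (e l) =
    Yf g (gR G (e i) (e k)) (gR G (e j) (e k)) si sj (sR G O (e k)) *
      Yf g (gR G (e i) (e l)) (gR G (e j) (e l)) si sj (sR G O (e l)) +
    Real.sqrt (wf g (gR G (e i) (e k)) (gR G (e j) (e k)) +
      Yf g (gR G (e i) (e k)) (gR G (e j) (e k)) si sj (sR G O (e k)) ^ 2) *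
    Real.sqrt (wf g (gR G (e i) (e l)) (gR G (e j) (e l)) +
      Yf g (gR G (e i) (e l)) (gR G (e j) (e l)) si sj (sR G O (e l)) ^ 2) -
    cf g (gR G (e i) (e k)) (gR G (e j) (e k)) (gR G (e i) (e l)) (gR G (e j) (e l))
  rw [key, wf, wf, cf]
  ring_nf

end Pool.Agent.Refl.H64
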