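import Pool.Agent.Helper64_Refl.Ends

/-!
# The bound for the far end of an edge (module FAR)
-/

namespace Pool.Agent.Refl.H64

open Matrix Pool.Agent.Refl

variable {G : M4}

lemma gR_nonneg {a b : Z4} (h : bz G a b ≤ 0) : 0 ≤ gR G a b := by
  have h' : (bz G a b : ℝ) ≤ 0 := by exact_mod_cast h
  rw [gR]
  exact div_nonneg (by linarith) (mul_nonneg (Real.sqrt_nonneg _) (Real.sqrt_nonneg _))

lemma gR_lt_one {a b : Z4} (ha : 0 < bz G a a) (hb : 0 < bz G b b) (h : 0 < g2 G a b) :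
    gR G a b < 1 := by
  have := gR_sq_lt ha hb h
  nlinarith

lemma sR_pos {O : R4} {a : Z4} (ha : 0 < bz G a a) (hO : br G O O < 0)
    (h : br G O (up a) < 0) : 0 < sR G O a := by
  have ha' : (0 : ℝ) < bz G a a := by exact_mod_cast ha
  rw [sR]
  exact div_pos (by linarith) (mul_pos (Real.sqrt_pos.2 ha') (Real.sqrt_pos.2 (by linarith)))

lemma gN_sq (N : ℕ) : gN N ^ 2 = N / 4 := by
  rw [gN, div_pow, Real.sq_sqrt (Nat.cast_nonneg _)]
  norm_num

lemma gN_nonneg (N : ℕ) : 0 ≤ gN N := by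
  rw [gN]
  positivity

lemma lt4_of_gN_lt {N : ℕ} (h : gN N < 1) : N < 4 := by
  have h1 : gN N ^ 2 < 1 := by
    have := gN_nonneg N
    nlinarith
  rw [gN_sq] at h1
  have : (N : ℝ) < 4 := by linarith
  exact_mod_cast this

lemma g3_eq (a b k x : Z4) : g3 G a b k x =
    bz G a a * bz G b b * bz G k x - bz G a a * bz G b x * bz G b k
    - bz G a b * bz G a b * bz G k x + bz G a b * bz G b x * bz G a k
    + bz G a x * bz G a b * bz G b k - bz G a x * bz G b b * bz G a k := by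
  rw [g3, det_fin_three]
  simp

/-- positivity of the Gram determinant of three vectors, normalized -/
lemma gram3_pos {a b c : Z4} (_hG : G.transpose = G) (ha : 0 < bz G a a) (hb : 0 < bz G b b)
    (hc : 0 < bz G c c) (h : 0 < g3 G a b c c) :
    0 < 1 - (gR G a b ^ 2 + gR G a c ^ 2 + gR G b c ^ 2 +
      2 * gR G a b * gR G a c * gR G b c) := by
  have ha' : (0 : ℝ) < bz G a a := by exact_mod_cast ha
  have hb' : (0 : ℝ) < bz G b b := by exact_mod_cast hb
  have hc' : (0 : ℝ) < bz G c c := by exact_mod_cast hc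
  set x := Real.sqrt (bz G a a) with hx
  set y := Real.sqrt (bz G b b) with hy
  set z := Real.sqrt (bz G c c) with hz
  have hx0 : 0 < x := Real.sqrt_pos.2 ha'
  have hy0 : 0 < y := Real.sqrt_pos.2 hb'
  have hz0 : 0 < z := Real.sqrt_pos.2 hc'
  have hxx : (bz G a a : ℝ) = x ^ 2 := (Real.sq_sqrt ha'.le).symm
  have hyy : (bz G b b : ℝ) = y ^ 2 := (Real.sq_sqrt hb'.le).symm
  have hzz : (bz G c c : ℝ) = z ^ 2 := (Real.sq_sqrt hc'.le).symm
  have hab : (bz G a b : ℝ) = -(gR G a b) * (x * y) := by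
    rw [gR, ← hx, ← hy]
    field_simp
  have hac : (bz G a c : ℝ) = -(gR G a c) * (x * z) := by
    rw [gR, ← hx, ← hz]
    field_simp
  have hbc : (bz G b c : ℝ) = -(gR G b c) * (y * z) := by
    rw [gR, ← hy, ← hz]
    field_simp
  have h' : (0 : ℝ) < ((g3 G a b c c : ℤ) : ℝ) := by exact_mod_cast h
  have h2 : ((g3 G a b c c : ℤ) : ℝ) = (x * y * z) ^ 2 *
      (1 - (gR G a b ^ 2 + gR G a c ^ 2 + gR G b c ^ 2 +
      2 * gR G a b * gR G a c * gR G b c)) := by
    rw [g3_eq]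
    push_cast
    rw [hxx, hyy, hzz, hab, hac, hbc]
    ring
  rw [h2] at h'
  exact (mul_pos_iff_of_pos_left (by positivity)).1 h'

lemma Qf_eq {g a b : ℝ} (hg : g ^ 2 < 1) : Qf g a b = a ^ 2 + (b + g * a) ^ 2 / (1 - g ^ 2) := by
  have : (1 - g ^ 2) ≠ 0 := (sub_pos.2 hg).ne'
  rw [Qf]
  field_simp
  ring

lemma SS_pos : (0 : ℝ) < (SS : ℝ) := by
  have : 0 < SS := by decide
  exact_mod_cast this

lemma Yf_nonneg {gij gik gjk si sj sk : ℝ} (h1 : 0 ≤ gij) (h1' : gij < 1) (h2 : 0 ≤ gik)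
    (h3 : 0 ≤ gjk) (h4 : 0 ≤ si) (h5 : 0 ≤ sj) (h6 : 0 ≤ sk) :
    0 ≤ Yf gij gik gjk si sj sk := by
  have h7 : 0 ≤ 1 - gij ^ 2 := by nlinarith
  rw [Yf]
  positivity

theorem far (h1 : FarRealStmt) (h2 : FarNatStmt) (h3 : EndsStmt) (h4 : NNStmt)
    (h5 : VertexPosStmt) : FarStmt := by
  intro G n e O hL hC i j k r hkr hVk hVr hjk hijk q lN mN hlm hq hout hl hm
  have hs := hL.symm
  have R := fun x => hC.root x
  have P := fun x => (hC.root x).pos
  obtain ⟨g2ij, g2ik, g2jk, g3k⟩ := h5 G n e O hL hC i j k hVk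
  obtain ⟨-, g2ir, g2jr, g3r⟩ := h5 G n e O hL hC i j r hVr
  obtain ⟨nij, njk, nik, -⟩ := id hVk
  obtain ⟨-, njr, nir, -⟩ := id hVr
  have hends := h3 G n e O hL hC i j k r hkr hVk hVr
  simp only at hends
  have hN : ∀ a b : Fin n, a ≠ b → gR G (e a) (e b) = gN (nn G (e a) (e b)) := fun a b hab =>
    (h4 G (e a) (e b) hL (R a) (R b)).2.2.1 (hC.obt a b hab)
  have hS : ∀ a, 0 < sR G O (e a) := fun a => sR_pos (P a) hC.Oneg (hC.neg a)
  set si := sR G O (e i)
  set sj := sR G O (e j)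
  set sk := sR G O (e k)
  set sr := sR G O (e r)
  have eij := hN i j nij
  have eik := hN i k nik
  have ejk := hN j k njk
  have eir := hN i r nir
  have ejr := hN j r njr
  have ekr := hN k r hkr
  have lij := gR_lt_one (P i) (P j) g2ij
  have lik := gR_lt_one (P i) (P k) g2ik
  have lir := gR_lt_one (P i) (P r) g2ir
  have ljr := gR_lt_one (P j) (P r) g2jr
  have lij2 := gR_sq_lt (P i) (P j) g2ij
  have hgram := gram3_pos hs (P i) (P j) (P r) g3r
  have oik := hout i k nik g2ik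
  have oir := hout i r nir g2ir
  have ojr := hout j r njr g2jr
  have oij := hout i j nij g2ij
  rw [eij] at hends hm lij lij2 hgram oij
  rw [eik] at hends lik oik
  rw [ejk, hjk] at hends
  rw [eir] at hends lir oir hgram
  rw [ejr] at hends ljr ojr hgram
  rw [ekr] at hends
  have g0 : gN 0 = 0 := by simp [gN]
  rw [g0] at hends
  set Nij := nn G (e i) (e j)
  set Nik := nn G (e i) (e k)
  set Nir := nn G (e i) (e r)
  set Njr := nn G (e j) (e r)
  have hprod : gN Nij * gN Nik = 0 := by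
    rcases Nat.mul_eq_zero.1 hijk with h | h
    · rw [h, g0, zero_mul]
    · rw [h, g0, mul_zero]
  have hlm' : 0 < (lN : ℝ) / SS + (mN : ℝ) / SS := by
    rw [← add_div]
    apply div_pos _ SS_pos
    exact_mod_cast hlm
  obtain ⟨f1, f2, f3, f4⟩ := h1 (gN Nij) (gN Nik) (gN Nir) (gN Njr) si sj sk sr q
    ((lN : ℝ) / SS) ((mN : ℝ) / SS) (gN_nonneg _) lij (gN_nonneg _) lik (gN_nonneg _) lir
    (gN_nonneg _) ljr hprod (hS i) (hS j) (hS k) (hS r) hq oik oir ojr (by positivity)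
    (by positivity) hlm' hl hm
  obtain ⟨t, ht⟩ := (h4 G (e i) (e j) hL (R i) (R j)).2.2.2 (e r) (R r)
  have ht' : t * t = Nij * Nir * Njr := by
    rw [← ht]
    ring
  have hgt : 2 * gN Nij * gN Nir * gN Njr = t / 4 := by
    have : gN Nij * gN Nir * gN Njr = t / 8 := by
      have e1 : gN Nij * gN Nir * gN Njr = Real.sqrt (Nij * Nir * Njr) / 8 := by
        rw [gN, gN, gN, Real.sqrt_mul (by positivity), Real.sqrt_mul (by positivity)]
        ring
      have e2 : ((Nij : ℝ) * Nir * Njr) = (t : ℝ) ^ 2 := by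
        have := congrArg (fun x : ℕ => (x : ℝ)) ht'
        push_cast at this
        rw [← this]
        ring
      rw [e1, e2, Real.sqrt_sq (by positivity)]
    linarith
  have hsum : Nij + Nir + Njr + t < 4 := by
    rw [gN_sq, gN_sq, gN_sq, hgt] at hgram
    have : (Nij : ℝ) + Nir + Njr + t < 4 := by linarith
    exact_mod_cast this
  have hlS : lN < SS := by
    rw [div_lt_one SS_pos] at f1
    exact_mod_cast f1
  have hmS : mN ≤ SS := by
    have e1 : (mN : ℝ) / SS * q ≤ q := by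
      calc (mN : ℝ) / SS * q ≤ (sj + gN Nij * si) ^ 2 / (1 - gN Nij ^ 2) := hm
        _ ≤ Qf (gN Nij) si sj := by
          rw [Qf_eq lij2]
          nlinarith [sq_nonneg si]
        _ ≤ q := oij
    have e2 : (mN : ℝ) / SS ≤ 1 := by
      by_contra hcon
      push Not at hcon
      nlinarith
    rw [div_le_one SS_pos] at e2
    exact_mod_cast e2
  refine h2 Nij Nik Nir Njr lN mN _ t _ _ (lt4_of_gN_lt lij) (lt4_of_gN_lt lik)
    (lt4_of_gN_lt lir) (lt4_of_gN_lt ljr) hijk ht' hsum hlm hlS hmS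
    (Yf_nonneg (gN_nonneg _) lij (gN_nonneg _) le_rfl (hS i).le (hS j).le (hS k).le)
    (Yf_nonneg (gN_nonneg _) lij (gN_nonneg _) (gN_nonneg _) (hS i).le (hS j).le (hS r).le)
    f2 f3 (fun h => f4 (by rw [h, g0])) ?_
  have hw : wf (gN Nij) (gN Nik) 0 = 1 - gN Nik ^ 2 := by
    rw [wf]
    rcases mul_eq_zero.1 hprod with h | h
    · rw [h]; simp
    · rw [h]; simp
  have hc : cf (gN Nij) (gN Nik) 0 (gN Nir) (gN Njr) = gN Nik * gN Nir := by
    rw [cf]
    rcases mul_eq_zero.1 hprod with h | h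
    · rw [h]; simp
    · rw [h]; simp
  rw [hends, hw, hc]

end Pool.Agent.Refl.H64
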