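import Pool.Agent.Helper64_Refl.GeoA

/-!
# Final result of part B (module GEO)
-/

namespace Pool.Agent.Refl.H64

open Matrix Pool.Agent.Refl

variable {G : M4}

lemma nn_comm (hG : G.transpose = G) (a b : Z4) : nn G a b = nn G b a := by
  rw [nn, nn, bz_comm hG a b, mul_comm]

lemma g2_comm (hG : G.transpose = G) (a b : Z4) : g2 G a b = g2 G b a := by
  rw [g2, g2, bz_comm hG a b]
  ring

lemma isV_swap12 {n : ℕ} {e : Fin n → Z4} {i j k : Fin n} (h : IsV G e i j k) :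
    IsV G e j i k := by
  obtain ⟨h1, h2, h3, V, h4, h5, h6, h7, h8⟩ := h
  exact ⟨h1.symm, h3, h2, V, h4, h5, h7, h6, h8⟩

lemma outer_swap34 {n : ℕ} {e : Fin n → Z4} {O : R4} {i1 i2 i3 i4 : Fin n}
    (h : Outer G e O i1 i2 i3 i4) : Outer G e O i1 i2 i4 i3 :=
  ⟨h.ne.symm, h.v4, h.v3, h.out⟩

lemma outer_swap12 (hG : G.transpose = G) {n : ℕ} {e : Fin n → Z4} {O : R4}
    {i1 i2 i3 i4 : Fin n} (h : Outer G e O i1 i2 i3 i4) : Outer G e O i2 i1 i3 i4 := by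
  refine ⟨h.ne, isV_swap12 h.v3, isV_swap12 h.v4, ?_⟩
  intro i j hij hp
  rw [gR_comm hG (e i2), Qf_comm _ (sR G O (e i2))]
  exact h.out i j hij hp

/-- Gram determinant of four vectors is nonpositive -/
lemma gram4_nonpos (hL : Lat G) (v : Fin 4 → Z4) :
    (Matrix.of fun i j => bz G (v i) (v j)).det ≤ 0 := by
  have h1 : (Matrix.of fun i j => bz G (v i) (v j)) =
      (Matrix.of v) * G * (Matrix.of v).transpose := by
    ext i j
    simp only [of_apply, mul_apply, transpose_apply, bz, Finset.sum_mul]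
    rw [Finset.sum_comm]
  rw [h1, det_mul, det_mul, det_transpose]
  have := det_neg hL.sig
  nlinarith [mul_self_nonneg (Matrix.of v).det]

lemma det4 (M : Matrix (Fin 4) (Fin 4) ℤ) : M.det =
    M 0 0 * (M 1 1 * (M 2 2 * M 3 3 - M 2 3 * M 3 2) - M 1 2 * (M 2 1 * M 3 3 - M 2 3 * M 3 1)
      + M 1 3 * (M 2 1 * M 3 2 - M 2 2 * M 3 1))
    - M 0 1 * (M 1 0 * (M 2 2 * M 3 3 - M 2 3 * M 3 2) - M 1 2 * (M 2 0 * M 3 3 - M 2 3 * M 3 0)
      + M 1 3 * (M 2 0 * M 3 2 - M 2 2 * M 3 0))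
    + M 0 2 * (M 1 0 * (M 2 1 * M 3 3 - M 2 3 * M 3 1) - M 1 1 * (M 2 0 * M 3 3 - M 2 3 * M 3 0)
      + M 1 3 * (M 2 0 * M 3 1 - M 2 1 * M 3 0))
    - M 0 3 * (M 1 0 * (M 2 1 * M 3 2 - M 2 2 * M 3 1) - M 1 1 * (M 2 0 * M 3 2 - M 2 2 * M 3 0)
      + M 1 2 * (M 2 0 * M 3 1 - M 2 1 * M 3 0)) := by
  rw [det_succ_row_zero, Fin.sum_univ_four]
  simp only [det_fin_three, submatrix_apply, Fin.succAbove]
  simp
  ring_nf

/-- the Gram determinant is nonpositive, in coordinates -/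
lemma gram4 (hL : Lat G) (a b c d : Z4) :
    bz G a a * (bz G b b * (bz G c c * bz G d d - bz G c d ^ 2)
      - bz G b c * (bz G b c * bz G d d - bz G c d * bz G b d)
      + bz G b d * (bz G b c * bz G c d - bz G c c * bz G b d))
    - bz G a b * (bz G a b * (bz G c c * bz G d d - bz G c d ^ 2)
      - bz G b c * (bz G a c * bz G d d - bz G c d * bz G a d)
      + bz G b d * (bz G a c * bz G c d - bz G c c * bz G a d))
    + bz G a c * (bz G a b * (bz G b c * bz G d d - bz G c d * bz G b d)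
      - bz G b b * (bz G a c * bz G d d - bz G c d * bz G a d)
      + bz G b d * (bz G a c * bz G b d - bz G b c * bz G a d))
    - bz G a d * (bz G a b * (bz G b c * bz G c d - bz G c c * bz G b d)
      - bz G b b * (bz G a c * bz G c d - bz G c c * bz G a d)
      + bz G b c * (bz G a c * bz G b d - bz G b c * bz G a d)) ≤ 0 := by
  have h := gram4_nonpos hL ![a, b, c, d]
  rw [det4] at h
  simp only [of_apply, cons_val_zero, cons_val_one, cons_val] at h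
  rw [bz_comm hL.symm b a, bz_comm hL.symm c a, bz_comm hL.symm d a, bz_comm hL.symm c b,
    bz_comm hL.symm d b, bz_comm hL.symm d c] at h
  linarith

theorem geo (h1 : OuterStmt) (h2 : GeoAStmt) (h3 : GeoIStmt) (h4 : GeoIIStmt) (h5 : NNStmt)
    (h6 : VertexPosStmt) : GeoStmt := by
  intro G n e O hL hC
  have hs := hL.symm
  have R := fun x => hC.root x
  have P := fun x => (hC.root x).pos
  obtain ⟨i1, i2, i3, i4, hO⟩ := h1 G n e O hL hC
  -- zeros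
  have hz : ∀ a b, nn G (e a) (e b) = 0 → bz G (e a) (e b) = 0 := by
    intro a b h
    have := (h5 G (e a) (e b) hL (R a) (R b)).1
    rw [h] at this
    have h' : 4 * bz G (e a) (e b) ^ 2 = 0 := by
      rw [← this]; simp
    have h'' : bz G (e a) (e b) ^ 2 = 0 := by linarith
    exact pow_eq_zero_iff two_ne_zero |>.1 h''
  obtain ⟨g12, g13, g23, gg3⟩ := h6 G n e O hL hC i1 i2 i3 hO.v3
  obtain ⟨-, g14, g24, gg4⟩ := h6 G n e O hL hC i1 i2 i4 hO.v4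
  have hgram := gram4 hL (e i1) (e i2) (e i3) (e i4)
  have k1 := P i1
  have k2 := P i2
  have k3 := P i3
  have k4 := P i4
  -- excluded patterns
  have x4 : ¬(nn G (e i1) (e i4) = 0 ∧ nn G (e i2) (e i4) = 0 ∧ nn G (e i3) (e i4) = 0) := by
    rintro ⟨a, b, c⟩
    rw [hz _ _ a, hz _ _ b, hz _ _ c] at hgram
    rw [g3_eq] at gg3
    have := mul_pos gg3 k4
    nlinarith
  have x3 : ¬(nn G (e i1) (e i3) = 0 ∧ nn G (e i2) (e i3) = 0 ∧ nn G (e i3) (e i4) = 0) := by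
    rintro ⟨a, b, c⟩
    rw [hz _ _ a, hz _ _ b, hz _ _ c] at hgram
    rw [g3_eq] at gg4
    have := mul_pos gg4 k3
    nlinarith
  have x13 : ¬(nn G (e i1) (e i2) = 0 ∧ nn G (e i1) (e i4) = 0 ∧ nn G (e i2) (e i3) = 0 ∧
      nn G (e i3) (e i4) = 0) := by
    rintro ⟨a, b, c, d⟩
    rw [hz _ _ a, hz _ _ b, hz _ _ c, hz _ _ d] at hgram
    rw [g2] at g13 g24
    have := mul_pos g13 g24
    nlinarith
  have x14 : ¬(nn G (e i1) (e i2) = 0 ∧ nn G (e i1) (e i3) = 0 ∧ nn G (e i2) (e i4) = 0 ∧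
      nn G (e i3) (e i4) = 0) := by
    rintro ⟨a, b, c, d⟩
    rw [hz _ _ a, hz _ _ b, hz _ _ c, hz _ _ d] at hgram
    rw [g2] at g14 g23
    have := mul_pos g14 g23
    nlinarith
  by_cases p12 : nn G (e i1) (e i3) = 0 ∧ nn G (e i1) (e i4) = 0 ∧ nn G (e i2) (e i3) = 0 ∧
      nn G (e i2) (e i4) = 0
  · -- case I
    obtain ⟨a, b, c, d⟩ := p12
    right; left
    rcases le_total (sR G O (e i2)) (sR G O (e i1)) with o1 | o1 <;>
      rcases le_total (sR G O (e i4)) (sR G O (e i3)) with o2 | o2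
    · exact ⟨i1, i2, i3, i4, h3 G n e O hL hC i1 i2 i3 i4 hO a b c d o1 o2⟩
    · exact ⟨i1, i2, i4, i3, h3 G n e O hL hC i1 i2 i4 i3 (outer_swap34 hO) b a d c o1 o2⟩
    · exact ⟨i2, i1, i3, i4, h3 G n e O hL hC i2 i1 i3 i4 (outer_swap12 hs hO) c d a b o1 o2⟩
    · exact ⟨i2, i1, i4, i3, h3 G n e O hL hC i2 i1 i4 i3 (outer_swap34 (outer_swap12 hs hO)) d c b a o1 o2⟩
  by_cases q2 : nn G (e i1) (e i2) = 0 ∧ nn G (e i2) (e i3) = 0 ∧ nn G (e i2) (e i4) = 0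
  · -- case II
    obtain ⟨a, b, c⟩ := q2
    have hne : ¬(nn G (e i1) (e i3) = 0 ∧ nn G (e i1) (e i4) = 0) := fun h =>
      p12 ⟨h.1, h.2, b, c⟩
    right; right
    rcases le_total
      ((sR G O (e i4) + gR G (e i1) (e i4) * sR G O (e i1)) ^ 2 / (1 - gR G (e i1) (e i4) ^ 2))
      ((sR G O (e i3) + gR G (e i1) (e i3) * sR G O (e i1)) ^ 2 / (1 - gR G (e i1) (e i3) ^ 2))
      with o | o
    · exact ⟨i1, i2, i3, i4, h4 G n e O hL hC i1 i2 i3 i4 hO a b c hne o⟩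
    · exact ⟨i1, i2, i4, i3, h4 G n e O hL hC i1 i2 i4 i3 (outer_swap34 hO) a c b
        (fun h => hne ⟨h.2, h.1⟩) o⟩
  by_cases q1 : nn G (e i1) (e i2) = 0 ∧ nn G (e i1) (e i3) = 0 ∧ nn G (e i1) (e i4) = 0
  · -- case II with 1, 2 exchanged
    obtain ⟨a, b, c⟩ := q1
    have a' : nn G (e i2) (e i1) = 0 := by rw [nn_comm hs]; exact a
    have hne : ¬(nn G (e i2) (e i3) = 0 ∧ nn G (e i2) (e i4) = 0) := fun h =>
      p12 ⟨b, c, h.1, h.2⟩
    right; right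
    rcases le_total
      ((sR G O (e i4) + gR G (e i2) (e i4) * sR G O (e i2)) ^ 2 / (1 - gR G (e i2) (e i4) ^ 2))
      ((sR G O (e i3) + gR G (e i2) (e i3) * sR G O (e i2)) ^ 2 / (1 - gR G (e i2) (e i3) ^ 2))
      with o | o
    · exact ⟨i2, i1, i3, i4, h4 G n e O hL hC i2 i1 i3 i4 (outer_swap12 hs hO) a' b c hne o⟩
    · exact ⟨i2, i1, i4, i3, h4 G n e O hL hC i2 i1 i4 i3 (outer_swap34 (outer_swap12 hs hO)) a' c b
        (fun h => hne ⟨h.2, h.1⟩) o⟩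
  · left
    rcases le_total (4 * nn G (e i1) (e i4) + nn G (e i2) (e i4))
      (4 * nn G (e i1) (e i3) + nn G (e i2) (e i3)) with o | o
    · exact ⟨i1, i2, i3, i4, hO.ne, hO.v3, hO.v4, ⟨q1, p12, x13, x14, x4, x3, q2⟩,
        h2 G n e O hL hC i1 i2 i3 i4 hO, o⟩
    · refine ⟨i1, i2, i4, i3, hO.ne.symm, hO.v4, hO.v3, ?_,
        h2 G n e O hL hC i1 i2 i4 i3 (outer_swap34 hO), o⟩
      have c34 : nn G (e i4) (e i3) = nn G (e i3) (e i4) := nn_comm hs _ _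
      refine ⟨fun h => q1 ⟨h.1, h.2.2, h.2.1⟩, fun h => p12 ⟨h.2.1, h.1, h.2.2.2, h.2.2.1⟩,
        fun h => x14 ⟨h.1, h.2.1, h.2.2.1, by rw [← c34]; exact h.2.2.2⟩,
        fun h => x13 ⟨h.1, h.2.1, h.2.2.1, by rw [← c34]; exact h.2.2.2⟩,
        fun h => x3 ⟨h.1, h.2.1, by rw [← c34]; exact h.2.2⟩,
        fun h => x4 ⟨h.1, h.2.1, by rw [← c34]; exact h.2.2⟩,
        fun h => q2 ⟨h.1, h.2.2, h.2.1⟩⟩

end Pool.Agent.Refl.H64
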