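import Pool.Agent.Helper64_Refl.Far

/-!
# The general bound for the two ends of the outermost edge (module GEOA)
-/

namespace Pool.Agent.Refl.H64

open Matrix Pool.Agent.Refl

variable {G : M4}

/-! ### rounding -/

lemma le_sqU {x : ℝ} {a : ℕ} (h : x ^ 2 ≤ (a : ℝ) / SS) : x ≤ (sqU a : ℝ) / SS := by
  have hS := SS_pos
  rw [le_div_iff₀ hS]
  have h1 : (x * SS) ^ 2 ≤ (a : ℝ) * SS := by
    rw [le_div_iff₀ hS] at h
    nlinarith
  have h2 : a * SS < (Nat.sqrt (a * SS) + 1) * (Nat.sqrt (a * SS) + 1) := Nat.lt_succ_sqrt _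
  have h3 : ((a : ℝ) * SS) < ((sqU a : ℕ) : ℝ) ^ 2 := by
    have : ((a * SS : ℕ) : ℝ) < (((Nat.sqrt (a * SS) + 1) * (Nat.sqrt (a * SS) + 1) : ℕ) : ℝ) := by
      exact_mod_cast h2
    rw [sqU]
    push_cast at this ⊢
    rw [sq]
    exact this
  have h4 : (0 : ℝ) ≤ ((sqU a : ℕ) : ℝ) := Nat.cast_nonneg _
  nlinarith

lemma div_lt_floor (a b : ℕ) (hb : 0 < b) : (a : ℝ) / b ≤ ((a / b + 1 : ℕ) : ℝ) := by
  have hb' : (0 : ℝ) < b := by exact_mod_cast hb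
  rw [div_le_iff₀ hb']
  have h1 : a < (a / b + 1) * b := by
    have := Nat.div_add_mod a b
    have := Nat.mod_lt a hb
    nlinarith
  exact_mod_cast h1.le

lemma mul_le_mulU {x y : ℝ} {a b : ℕ} (_hx0 : 0 ≤ x) (hy0 : 0 ≤ y) (hx : x ≤ (a : ℝ) / SS)
    (hy : y ≤ (b : ℝ) / SS) : x * y ≤ (mulU a b : ℝ) / SS := by
  have hS := SS_pos
  have hSn : 0 < SS := by decide
  have h1 : x * y ≤ (a : ℝ) / SS * ((b : ℝ) / SS) :=
    mul_le_mul hx hy hy0 (by positivity)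
  have h2 := div_lt_floor (a * b) SS hSn
  have h3 : (a : ℝ) / SS * ((b : ℝ) / SS) = (((a * b : ℕ) : ℝ) / SS) / SS := by
    push_cast
    field_simp
  calc x * y ≤ _ := h1
    _ = (((a * b : ℕ) : ℝ) / SS) / SS := h3
    _ ≤ ((a * b / SS + 1 : ℕ) : ℝ) / SS := div_le_div_of_nonneg_right h2 hS.le
    _ = (mulU a b : ℝ) / SS := by rw [mulU]

lemma c4_eq {N : ℕ} (h : N < 4) : (c4 N : ℝ) / SS = 1 - gN N ^ 2 := by
  rw [gN_sq]
  have : c4 N = (4 - N) * 250000 := by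
    rw [c4, SS]
    omega
  rw [this, SS]
  push_cast [Nat.cast_sub h.le]
  ring

/-- final step: from `g ≤ x / SS` to the bound for `N` -/
lemma nat_of_gN {N x : ℕ} (h : gN N ≤ (x : ℝ) / SS) : N ≤ 4 * x * x / (SS * SS) := by
  have hS := SS_pos
  rw [Nat.le_div_iff_mul_le (by decide)]
  have h1 : gN N ^ 2 ≤ ((x : ℝ) / SS) ^ 2 := pow_le_pow_left₀ (gN_nonneg N) h 2
  rw [gN_sq, div_pow, div_le_div_iff₀ (by norm_num) (by positivity)] at h1
  have h2 : ((N * (SS * SS) : ℕ) : ℝ) ≤ ((4 * x * x : ℕ) : ℝ) := by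
    push_cast
    nlinarith
  exact_mod_cast h2

/-- `h² ≤ (...)/SS` -/
lemma hsq_le {N12 N13 N23 t : ℕ} (h12 : N12 < 4) (ht : t * t = N12 * N13 * N23) :
    ((gN N23 + gN N12 * gN N13) / Real.sqrt (1 - gN N12 ^ 2)) ^ 2 ≤
      (((4 * N23 + N12 * N13 + 4 * t) * SS / (4 * (4 - N12)) + 1 : ℕ) : ℝ) / SS := by
  have hS := SS_pos
  have hpos : (0 : ℝ) < 1 - gN N12 ^ 2 := by
    rw [gN_sq]
    have : (N12 : ℝ) < 4 := by exact_mod_cast h12
    linarith
  have e1 : gN N12 * gN N13 * gN N23 = t / 8 := by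
    have e1 : gN N12 * gN N13 * gN N23 = Real.sqrt (N12 * N13 * N23) / 8 := by
      rw [gN, gN, gN, Real.sqrt_mul (by positivity), Real.sqrt_mul (by positivity)]
      ring
    have e2 : ((N12 : ℝ) * N13 * N23) = (t : ℝ) ^ 2 := by
      have := congrArg (fun x : ℕ => (x : ℝ)) ht
      push_cast at this
      rw [← this]
      ring
    rw [e1, e2, Real.sqrt_sq (by positivity)]
  have h4 : (0 : ℝ) < 4 - N12 := by
    have : (N12 : ℝ) < 4 := by exact_mod_cast h12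
    linarith
  have e2 : ((gN N23 + gN N12 * gN N13) / Real.sqrt (1 - gN N12 ^ 2)) ^ 2 =
      ((4 * N23 + N12 * N13 + 4 * t : ℕ) : ℝ) / ((4 * (4 - N12) : ℕ) : ℝ) := by
    rw [div_pow, Real.sq_sqrt hpos.le]
    have e3 : (gN N23 + gN N12 * gN N13) ^ 2 = (4 * N23 + N12 * N13 + 4 * t) / 16 := by
      have : (gN N23 + gN N12 * gN N13) ^ 2 = gN N23 ^ 2 + gN N12 ^ 2 * gN N13 ^ 2 +
        2 * (gN N12 * gN N13 * gN N23) := by ring
      rw [this, e1, gN_sq, gN_sq, gN_sq]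
      ring
    rw [e3, gN_sq]
    push_cast [Nat.cast_sub h12.le]
    field_simp
    ring
  have h5 := div_lt_floor ((4 * N23 + N12 * N13 + 4 * t) * SS) (4 * (4 - N12)) (by omega)
  rw [e2, le_div_iff₀ hS]
  refine le_trans (le_of_eq ?_) h5
  push_cast [Nat.cast_sub h12.le]
  ring

/-- `wf ≤ wA / SS` -/
lemma wf_le {N12 N13 N23 t : ℕ} (h12 : N12 < 4) (ht : t * t = N12 * N13 * N23)
    (hsum : N12 + N13 + N23 + t < 4) :
    wf (gN N12) (gN N13) (gN N23) ≤ (wA N12 N13 N23 : ℝ) / SS := by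
  have hS := SS_pos
  have e1 : gN N12 * gN N13 * gN N23 = t / 8 := by
    have e1 : gN N12 * gN N13 * gN N23 = Real.sqrt (N12 * N13 * N23) / 8 := by
      rw [gN, gN, gN, Real.sqrt_mul (by positivity), Real.sqrt_mul (by positivity)]
      ring
    have e2 : ((N12 : ℝ) * N13 * N23) = (t : ℝ) ^ 2 := by
      have := congrArg (fun x : ℕ => (x : ℝ)) ht
      push_cast at this
      rw [← this]
      ring
    rw [e1, e2, Real.sqrt_sq (by positivity)]
  have h4 : (0 : ℝ) < 4 - N12 := by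
    have : (N12 : ℝ) < 4 := by exact_mod_cast h12
    linarith
  have ht2 : Nat.sqrt (N12 * N13 * N23) = t := by
    rw [← ht, Nat.sqrt_eq]
  have e2 : wf (gN N12) (gN N13) (gN N23) =
      ((4 - N12 - N13 - N23 - t : ℕ) : ℝ) / ((4 - N12 : ℕ) : ℝ) := by
    rw [wf]
    have e3 : gN N13 ^ 2 + gN N23 ^ 2 + 2 * gN N12 * gN N13 * gN N23 =
        gN N13 ^ 2 + gN N23 ^ 2 + 2 * (gN N12 * gN N13 * gN N23) := by ring
    rw [e3, e1, gN_sq, gN_sq, gN_sq]
    have e4 : ((4 - N12 - N13 - N23 - t : ℕ) : ℝ) = 4 - N12 - N13 - N23 - t := by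
      have : 4 - N12 - N13 - N23 - t + (N12 + N13 + N23 + t) = 4 := by omega
      have := congrArg (fun x : ℕ => (x : ℝ)) this
      push_cast at this
      linarith
    rw [e4, Nat.cast_sub h12.le]
    push_cast
    field_simp
    ring
  have h5 := div_lt_floor ((4 - N12 - N13 - N23 - t) * SS) (4 - N12) (by omega)
  rw [e2, wA, ht2, le_div_iff₀ hS]
  refine le_trans (le_of_eq ?_) h5
  push_cast
  ring

/-! ### the real inequality -/

lemma Qf_comm (g a b : ℝ) : Qf g a b = Qf g b a := by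
  rw [Qf, Qf]
  ring_nf

lemma Yf_comm (g12 g13 g23 s1 s2 s3 : ℝ) :
    Yf g12 g13 g23 s1 s2 s3 = Yf g12 g23 g13 s2 s1 s3 := by
  rw [Yf, Yf, Qf_comm g12 s1 s2]
  ring_nf

lemma Yf_le {g12 g13 g23 s1 s2 s3 : ℝ} (h12 : 0 ≤ g12) (h12' : g12 < 1) (h13 : 0 ≤ g13)
    (h13' : g13 < 1) (_h23 : 0 ≤ g23) (hs1 : 0 < s1) (hs2 : 0 < s2) (hs3 : 0 < s3)
    (hQ : Qf g13 s1 s3 ≤ Qf g12 s1 s2) :
    Yf g12 g13 g23 s1 s2 s3 ≤
      (Real.sqrt (1 - g13 ^ 2) + (g23 + g12 * g13) / Real.sqrt (1 - g12 ^ 2)) *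
        ((s2 + g12 * s1) / Real.sqrt (1 - g12 ^ 2) / Real.sqrt (1 + Qf g12 s1 s2)) := by
  have hD : 0 < 1 - g12 ^ 2 := by nlinarith
  have hE : 0 < 1 - g13 ^ 2 := by nlinarith
  rw [Qf_eq (by linarith), Qf_eq (by linarith)] at hQ
  set d := Real.sqrt (1 - g12 ^ 2) with hd
  have hd0 : 0 < d := Real.sqrt_pos.2 hD
  have hdd : d ^ 2 = 1 - g12 ^ 2 := Real.sq_sqrt hD.le
  set m := (s2 + g12 * s1) / d with hm
  have hm0 : 0 < m := by positivity
  have hm2 : m ^ 2 = (s2 + g12 * s1) ^ 2 / (1 - g12 ^ 2) := by rw [hm, div_pow, hdd]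
  have hle : s3 + g13 * s1 ≤ Real.sqrt (1 - g13 ^ 2) * m := by
    have h1 : (s3 + g13 * s1) ^ 2 / (1 - g13 ^ 2) ≤ m ^ 2 := by rw [hm2]; linarith
    rw [div_le_iff₀ hE] at h1
    have h2 : (s3 + g13 * s1) ^ 2 ≤ (Real.sqrt (1 - g13 ^ 2) * m) ^ 2 := by
      rw [mul_pow, Real.sq_sqrt hE.le]
      linarith
    exact (pow_le_pow_iff_left₀ (by positivity) (by positivity) two_ne_zero).1 h2
  have hq0 : 0 < Real.sqrt (1 + Qf g12 s1 s2) := by
    apply Real.sqrt_pos.2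
    have := Qf_nonneg (g := g12) (a := s1) (b := s2) (by linarith)
    linarith
  rw [Yf, div_le_iff₀ hq0]
  have hnum : s3 + (s1 + g12 * s2) / (1 - g12 ^ 2) * g13 + (s2 + g12 * s1) / (1 - g12 ^ 2) * g23
      = (s3 + g13 * s1) + (g23 + g12 * g13) / d * m := by
    rw [hm]
    have : (g23 + g12 * g13) / d * ((s2 + g12 * s1) / d) =
        (g23 + g12 * g13) * (s2 + g12 * s1) / d ^ 2 := by
      field_simp
    rw [this, hdd]
    field_simp
    ring
  rw [hnum]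
  calc (s3 + g13 * s1) + (g23 + g12 * g13) / d * m
      ≤ Real.sqrt (1 - g13 ^ 2) * m + (g23 + g12 * g13) / d * m := by linarith
    _ = (Real.sqrt (1 - g13 ^ 2) + (g23 + g12 * g13) / d) *
        (m / Real.sqrt (1 + Qf g12 s1 s2)) * Real.sqrt (1 + Qf g12 s1 s2) := by
      field_simp

/-- the pair `P`, `R` -/
lemma PR_facts {g s1 s2 : ℝ} (hg : 0 ≤ g) (hg' : g < 1) (hs1 : 0 < s1) (hs2 : 0 < s2) :
    let P := (s2 + g * s1) / Real.sqrt (1 - g ^ 2) / Real.sqrt (1 + Qf g s1 s2)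
    let R := (s1 + g * s2) / Real.sqrt (1 - g ^ 2) / Real.sqrt (1 + Qf g s1 s2)
    0 < P ∧ 0 < R ∧ P ≤ 1 ∧ R ≤ 1 ∧ P ^ 2 + R ^ 2 - 2 * g * P * R ≤ 1 - g ^ 2 := by
  intro P R
  have hD : 0 < 1 - g ^ 2 := by nlinarith
  have hQ0 := Qf_nonneg (g := g) (a := s1) (b := s2) (by linarith)
  have hd0 : 0 < Real.sqrt (1 - g ^ 2) := Real.sqrt_pos.2 hD
  have hq0 : 0 < Real.sqrt (1 + Qf g s1 s2) := Real.sqrt_pos.2 (by linarith)
  have hd2 : Real.sqrt (1 - g ^ 2) ^ 2 = 1 - g ^ 2 := Real.sq_sqrt hD.le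
  have hq2 : Real.sqrt (1 + Qf g s1 s2) ^ 2 = 1 + Qf g s1 s2 := Real.sq_sqrt (by linarith)
  have hP0 : 0 < P := by positivity
  have hR0 : 0 < R := by positivity
  have hP2 : P ^ 2 = (s2 + g * s1) ^ 2 / (1 - g ^ 2) / (1 + Qf g s1 s2) := by
    simp only [P]
    rw [div_pow, div_pow, hd2, hq2]
  have hR2 : R ^ 2 = (s1 + g * s2) ^ 2 / (1 - g ^ 2) / (1 + Qf g s1 s2) := by
    simp only [R]
    rw [div_pow, div_pow, hd2, hq2]
  have hPR : P * R = (s2 + g * s1) * (s1 + g * s2) / (1 - g ^ 2) / (1 + Qf g s1 s2) := by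
    simp only [P, R]
    have : (s2 + g * s1) / Real.sqrt (1 - g ^ 2) / Real.sqrt (1 + Qf g s1 s2) *
        ((s1 + g * s2) / Real.sqrt (1 - g ^ 2) / Real.sqrt (1 + Qf g s1 s2)) =
        (s2 + g * s1) * (s1 + g * s2) / Real.sqrt (1 - g ^ 2) ^ 2 /
          Real.sqrt (1 + Qf g s1 s2) ^ 2 := by
      field_simp
    rw [this, hd2, hq2]
  refine ⟨hP0, hR0, ?_, ?_, ?_⟩
  · have : P ^ 2 ≤ 1 := by
      rw [hP2, div_le_one (by linarith)]
      have := Qf_eq (g := g) (a := s1) (b := s2) (by linarith)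
      nlinarith [sq_nonneg s1]
    nlinarith
  · have : R ^ 2 ≤ 1 := by
      rw [hR2, div_le_one (by linarith)]
      have := Qf_eq (g := g) (a := s2) (b := s1) (by linarith)
      rw [Qf_comm] at this
      nlinarith [sq_nonneg s2]
    nlinarith
  · have e1 : P ^ 2 + R ^ 2 - 2 * g * P * R =
        (1 - g ^ 2) * (Qf g s1 s2 / (1 + Qf g s1 s2)) := by
      have e2 : P ^ 2 + R ^ 2 - 2 * g * P * R = P ^ 2 + R ^ 2 - 2 * g * (P * R) := by ring
      rw [e2, hP2, hR2, hPR]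
      have e3 : (1 : ℝ) + Qf g s1 s2 ≠ 0 := by linarith
      have e4 : (s2 + g * s1) ^ 2 + (s1 + g * s2) ^ 2 -
          2 * g * ((s2 + g * s1) * (s1 + g * s2)) = (1 - g ^ 2) * ((1 - g ^ 2) * Qf g s1 s2) := by
        rw [Qf]
        field_simp
        ring
      have e5 : (s2 + g * s1) ^ 2 / (1 - g ^ 2) / (1 + Qf g s1 s2) +
          (s1 + g * s2) ^ 2 / (1 - g ^ 2) / (1 + Qf g s1 s2) -
          2 * g * ((s2 + g * s1) * (s1 + g * s2) / (1 - g ^ 2) / (1 + Qf g s1 s2)) =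
          ((s2 + g * s1) ^ 2 + (s1 + g * s2) ^ 2 -
          2 * g * ((s2 + g * s1) * (s1 + g * s2))) / (1 - g ^ 2) / (1 + Qf g s1 s2) := by
        field_simp
      rw [e5, e4]
      field_simp
    rw [e1]
    have : Qf g s1 s2 / (1 + Qf g s1 s2) ≤ 1 := by
      rw [div_le_one (by linarith)]
      linarith
    nlinarith

/-- convexity step -/
lemma convex_step {g Y a b P R : ℝ} (hg : 0 ≤ g) (hg' : g < 1) (hY : 0 ≤ Y) (ha : 0 < a)
    (hb : 0 < b) (h1 : Y ≤ a * P) (h2 : Y ≤ b * R) (hga : g * a ≤ b) (hgb : g * b ≤ a)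
    (hF : P ^ 2 + R ^ 2 - 2 * g * P * R ≤ 1 - g ^ 2) :
    Y ^ 2 * (a ^ 2 + b ^ 2 - 2 * g * a * b) ≤ (1 - g ^ 2) * (a ^ 2 * b ^ 2) := by
  set P0 := Y / a with hP0
  set R0 := Y / b with hR0
  have p1 : P0 ≤ P := by rw [hP0, div_le_iff₀ ha]; linarith
  have p2 : R0 ≤ R := by rw [hR0, div_le_iff₀ hb]; linarith
  have q1 : 0 ≤ P0 - g * R0 := by
    have : P0 - g * R0 = Y * (b - g * a) / (a * b) := by
      rw [hP0, hR0]; field_simp
    rw [this]
    exact div_nonneg (mul_nonneg hY (by linarith)) (by positivity)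
  have q2 : 0 ≤ R0 - g * P0 := by
    have : R0 - g * P0 = Y * (a - g * b) / (a * b) := by
      rw [hP0, hR0]; field_simp
    rw [this]
    exact div_nonneg (mul_nonneg hY (by linarith)) (by positivity)
  have hF0 : P0 ^ 2 + R0 ^ 2 - 2 * g * P0 * R0 ≤ P ^ 2 + R ^ 2 - 2 * g * P * R := by
    have e1 : P ^ 2 + R ^ 2 - 2 * g * P * R - (P0 ^ 2 + R0 ^ 2 - 2 * g * P0 * R0) =
        ((P - P0) ^ 2 + (R - R0) ^ 2 - 2 * g * (P - P0) * (R - R0)) +
        2 * ((P - P0) * (P0 - g * R0) + (R - R0) * (R0 - g * P0)) := by ring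
    have e2 : 0 ≤ (P - P0) ^ 2 + (R - R0) ^ 2 - 2 * g * (P - P0) * (R - R0) := by
      nlinarith [mul_nonneg (by linarith : (0 : ℝ) ≤ 1 - g) (add_nonneg (sq_nonneg (P - P0))
        (sq_nonneg (R - R0))), mul_nonneg hg (sq_nonneg ((P - P0) - (R - R0)))]
    have e3 : 0 ≤ (P - P0) * (P0 - g * R0) + (R - R0) * (R0 - g * P0) :=
      add_nonneg (mul_nonneg (by linarith) q1) (mul_nonneg (by linarith) q2)
    linarith
  have hF1 : P0 ^ 2 + R0 ^ 2 - 2 * g * P0 * R0 =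
      Y ^ 2 * (a ^ 2 + b ^ 2 - 2 * g * a * b) / (a ^ 2 * b ^ 2) := by
    rw [hP0, hR0]
    field_simp
    ring
  rw [hF1] at hF0
  have := le_trans hF0 hF
  rw [div_le_iff₀ (by positivity)] at this
  exact this

lemma gN_le_gU (N : ℕ) : gN N ≤ (gU N : ℝ) / SS := by
  have hS := SS_pos
  rw [le_div_iff₀ hS]
  have h2 : N * SS * SS < (Nat.sqrt (N * SS * SS) + 1) * (Nat.sqrt (N * SS * SS) + 1) :=
    Nat.lt_succ_sqrt _
  have h3 : Real.sqrt N * SS ≤ (Nat.sqrt (N * SS * SS) + 1 : ℕ) := by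
    have : Real.sqrt N * SS = Real.sqrt ((N * SS * SS : ℕ) : ℝ) := by
      push_cast
      rw [mul_assoc, Real.sqrt_mul (Nat.cast_nonneg _), Real.sqrt_mul_self hS.le]
    rw [this]
    apply Real.sqrt_le_iff.2
    refine ⟨Nat.cast_nonneg _, ?_⟩
    rw [sq]
    exact_mod_cast h2.le
  have h4 : Nat.sqrt (N * SS * SS) + 1 ≤ 2 * gU N := by
    rw [gU]
    omega
  have h5 : ((Nat.sqrt (N * SS * SS) + 1 : ℕ) : ℝ) ≤ 2 * (gU N : ℝ) := by exact_mod_cast h4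
  rw [gN]
  linarith

lemma le_divU {y : ℝ} {m d : ℕ} (d0 : (0 : ℝ) < d) (i3 : 0 < d)
    (h : y * ((d : ℝ) / SS) ≤ (m : ℝ) / SS) : y ≤ (divU m d : ℝ) / SS := by
  have hS := SS_pos
  have e2 := div_lt_floor (m * SS) d i3
  have e5 : (divU m d : ℝ) = ((m * SS / d + 1 : ℕ) : ℝ) := by rw [divU]
  rw [e5]
  generalize hz : ((m * SS / d + 1 : ℕ) : ℝ) = z at e2
  rw [le_div_iff₀ hS]
  refine le_trans ?_ e2
  rw [le_div_iff₀ d0]
  push_cast
  have e3 : y * ((d : ℝ) / SS) * SS = y * d := by field_simp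
  have e4 := mul_le_mul_of_nonneg_right h hS.le
  rw [e3, div_mul_cancel₀ _ hS.ne'] at e4
  nlinarith

lemma Yf_sq_le {N12 N13 N23 t : ℕ} (h12 : N12 < 4) (h13 : N13 < 4) (h23 : N23 < 4)
    (ht : t * t = N12 * N13 * N23) {s1 s2 s3 : ℝ}
    (hs1 : 0 < s1) (hs2 : 0 < s2) (hs3 : 0 < s3)
    (hQ1 : Qf (gN N13) s1 s3 ≤ Qf (gN N12) s1 s2) (hQ2 : Qf (gN N23) s2 s3 ≤ Qf (gN N12) s1 s2) :
    Yf (gN N12) (gN N13) (gN N23) s1 s2 s3 ^ 2 ≤ (yA N12 N13 N23 : ℝ) / SS := by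
  have hS := SS_pos
  have hlt : ∀ N : ℕ, N < 4 → gN N < 1 := by
    intro N hN
    have h1 : gN N ^ 2 < 1 := by
      rw [gN_sq]
      have : (N : ℝ) < 4 := by exact_mod_cast hN
      linarith
    nlinarith [gN_nonneg N]
  have ht2 : Nat.sqrt (N12 * N13 * N23) = t := by
    rw [← ht, Nat.sqrt_eq]
  have hY0 := Yf_nonneg (gN_nonneg N12) (hlt _ h12) (gN_nonneg N13) (gN_nonneg N23) hs1.le
    hs2.le hs3.le
  have hb := Yf_le (gN_nonneg N12) (hlt _ h12) (gN_nonneg N13) (hlt _ h13) (gN_nonneg N23)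
    hs1 hs2 hs3 hQ1
  have hb' := Yf_le (gN_nonneg N12) (hlt _ h12) (gN_nonneg N23) (hlt _ h23) (gN_nonneg N13)
    hs2 hs1 hs3 (by rw [Qf_comm (gN N12) s2 s1]; exact hQ2)
  rw [← Yf_comm, Qf_comm (gN N12) s2 s1] at hb'
  obtain ⟨P0, R0, P1, R1, hF⟩ := PR_facts (gN_nonneg N12) (hlt _ h12) hs1 hs2
  have f1 : Real.sqrt (1 - gN N13 ^ 2) ≤ (sqU (c4 N13) : ℝ) / SS := by
    apply le_sqU
    rw [Real.sq_sqrt (by nlinarith [hlt _ h13, gN_nonneg N13]), c4_eq h13]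
  have f2 : Real.sqrt (1 - gN N23 ^ 2) ≤ (sqU (c4 N23) : ℝ) / SS := by
    apply le_sqU
    rw [Real.sq_sqrt (by nlinarith [hlt _ h23, gN_nonneg N23]), c4_eq h23]
  have f3 := le_sqU (hsq_le (N13 := N13) (N23 := N23) h12 ht)
  have f4 := le_sqU (hsq_le (N12 := N12) (N13 := N23) (N23 := N13) (t := t) h12
    (by rw [ht]; ring))
  set P := (s2 + gN N12 * s1) / Real.sqrt (1 - gN N12 ^ 2) / Real.sqrt (1 + Qf (gN N12) s1 s2)
  set R := (s1 + gN N12 * s2) / Real.sqrt (1 - gN N12 ^ 2) / Real.sqrt (1 + Qf (gN N12) s1 s2)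
  set Y := Yf (gN N12) (gN N13) (gN N23) s1 s2 s3
  rw [yA, ht2]
  set a := sqU (c4 N13) + sqU ((4 * N23 + N12 * N13 + 4 * t) * SS / (4 * (4 - N12)) + 1) with ha
  set b := sqU (c4 N23) + sqU ((4 * N13 + N12 * N23 + 4 * t) * SS / (4 * (4 - N12)) + 1) with hb2
  have ga : Real.sqrt (1 - gN N13 ^ 2) +
      (gN N23 + gN N12 * gN N13) / Real.sqrt (1 - gN N12 ^ 2) ≤ (a : ℝ) / SS := by
    have e1 : (a : ℝ) / SS = (sqU (c4 N13) : ℝ) / SS +
        (sqU ((4 * N23 + N12 * N13 + 4 * t) * SS / (4 * (4 - N12)) + 1) : ℝ) / SS := by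
      rw [ha, Nat.cast_add, add_div]
    rw [e1]
    exact add_le_add f1 f3
  have gb : Real.sqrt (1 - gN N23 ^ 2) +
      (gN N13 + gN N12 * gN N23) / Real.sqrt (1 - gN N12 ^ 2) ≤ (b : ℝ) / SS := by
    have e1 : (b : ℝ) / SS = (sqU (c4 N23) : ℝ) / SS +
        (sqU ((4 * N13 + N12 * N23 + 4 * t) * SS / (4 * (4 - N12)) + 1) : ℝ) / SS := by
      rw [hb2, Nat.cast_add, add_div]
    rw [e1]
    exact add_le_add f2 f4
  have hYa : Y ≤ (a : ℝ) / SS * P := le_trans hb (mul_le_mul_of_nonneg_right ga P0.le)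
  have hYb : Y ≤ (b : ℝ) / SS * R := le_trans hb' (mul_le_mul_of_nonneg_right gb R0.le)
  have a0 : 0 < a := by rw [ha, sqU]; omega
  have b0 : 0 < b := by rw [hb2, sqU]; omega
  have a0' : (0 : ℝ) < (a : ℝ) / SS := div_pos (by exact_mod_cast a0) hS
  have b0' : (0 : ℝ) < (b : ℝ) / SS := div_pos (by exact_mod_cast b0) hS
  have g1 : Y ≤ (a : ℝ) / SS := by nlinarith
  have g2 : Y ≤ (b : ℝ) / SS := by nlinarith
  have k1 := mul_le_mulU hY0 hY0 g1 g1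
  have k2 := mul_le_mulU hY0 hY0 g2 g2
  have kv : Y ^ 2 ≤ ((min (mulU a a) (mulU b b) : ℕ) : ℝ) / SS := by
    rw [sq]
    rcases min_choice (mulU a a) (mulU b b) with h | h
    · rw [h]; exact k1
    · rw [h]; exact k2
  split_ifs with hif
  · obtain ⟨i1, i2, i3⟩ := hif
    set d := (a * a + b * b) / SS - (2 * gU N12 * a * b / (SS * SS) + 1) with hd
    have hgU := gN_le_gU N12
    have j1 : gN N12 * ((a : ℝ) / SS) ≤ (b : ℝ) / SS := by
      have : (gU N12 : ℝ) * a ≤ b * SS := by exact_mod_cast i1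
      have h2 : (gU N12 : ℝ) / SS * ((a : ℝ) / SS) ≤ (b : ℝ) / SS := by
        rw [div_mul_div_comm, div_le_div_iff₀ (by positivity) hS]
        nlinarith
      exact le_trans (mul_le_mul_of_nonneg_right hgU a0'.le) h2
    have j2 : gN N12 * ((b : ℝ) / SS) ≤ (a : ℝ) / SS := by
      have : (gU N12 : ℝ) * b ≤ a * SS := by exact_mod_cast i2
      have h2 : (gU N12 : ℝ) / SS * ((b : ℝ) / SS) ≤ (a : ℝ) / SS := by
        rw [div_mul_div_comm, div_le_div_iff₀ (by positivity) hS]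
        nlinarith
      exact le_trans (mul_le_mul_of_nonneg_right hgU b0'.le) h2
    have hcv := convex_step (gN_nonneg N12) (hlt _ h12) hY0 a0' b0' hYa hYb j1 j2 hF
    have hdle : (d : ℝ) / SS ≤ ((a : ℝ) / SS) ^ 2 + ((b : ℝ) / SS) ^ 2 -
        2 * gN N12 * ((a : ℝ) / SS) * ((b : ℝ) / SS) := by
      have e1 : d + (2 * gU N12 * a * b / (SS * SS) + 1) = (a * a + b * b) / SS := by omega
      have e2 : (((a * a + b * b) / SS : ℕ) : ℝ) ≤ ((a * a + b * b : ℕ) : ℝ) / SS :=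
        Nat.cast_div_le
      have e3 := div_lt_floor (2 * gU N12 * a * b) (SS * SS) (by decide)
      have e4 : (d : ℝ) + ((2 * gU N12 * a * b / (SS * SS) + 1 : ℕ) : ℝ) =
          (((a * a + b * b) / SS : ℕ) : ℝ) := by exact_mod_cast e1
      have e5 : (d : ℝ) ≤ ((a * a + b * b : ℕ) : ℝ) / SS -
          ((2 * gU N12 * a * b : ℕ) : ℝ) / ((SS * SS : ℕ) : ℝ) := by linarith
      have e6 : 2 * gN N12 * ((a : ℝ) / SS) * ((b : ℝ) / SS) ≤
          2 * ((gU N12 : ℝ) / SS) * ((a : ℝ) / SS) * ((b : ℝ) / SS) := by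
        have := mul_le_mul_of_nonneg_right hgU (mul_nonneg a0'.le b0'.le)
        nlinarith
      have e7 : (d : ℝ) / SS ≤ (((a * a + b * b : ℕ) : ℝ) / SS -
          ((2 * gU N12 * a * b : ℕ) : ℝ) / ((SS * SS : ℕ) : ℝ)) / SS :=
        div_le_div_of_nonneg_right e5 hS.le
      have e8 : (((a * a + b * b : ℕ) : ℝ) / SS -
          ((2 * gU N12 * a * b : ℕ) : ℝ) / ((SS * SS : ℕ) : ℝ)) / SS =
          ((a : ℝ) / SS) ^ 2 + ((b : ℝ) / SS) ^ 2 -
          2 * ((gU N12 : ℝ) / SS) * ((a : ℝ) / SS) * ((b : ℝ) / SS) := by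
        push_cast
        field_simp
      linarith
    have d0 : (0 : ℝ) < d := by exact_mod_cast i3
    have d0' : (0 : ℝ) < (d : ℝ) / SS := div_pos d0 hS
    have hnum : (1 - gN N12 ^ 2) * (((a : ℝ) / SS) ^ 2 * ((b : ℝ) / SS) ^ 2) ≤
        (mulU (c4 N12) (mulU (mulU a a) (mulU b b)) : ℝ) / SS := by
      apply mul_le_mulU
      · nlinarith [hlt _ h12, gN_nonneg N12]
      · exact mul_nonneg (sq_nonneg _) (sq_nonneg _)
      · rw [c4_eq h12]
      · apply mul_le_mulU (sq_nonneg _) (sq_nonneg _)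
        · rw [sq]; exact mul_le_mulU a0'.le a0'.le le_rfl le_rfl
        · rw [sq]; exact mul_le_mulU b0'.le b0'.le le_rfl le_rfl
    have hY2 : Y ^ 2 ≤ (divU (mulU (c4 N12) (mulU (mulU a a) (mulU b b))) d : ℝ) / SS := by
      refine le_divU d0 i3 ?_
      exact le_trans (le_trans (mul_le_mul_of_nonneg_left hdle (sq_nonneg Y)) hcv) hnum
    rcases min_choice (min (mulU a a) (mulU b b))
      (divU (mulU (c4 N12) (mulU (mulU a a) (mulU b b))) d) with h | h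
    · rw [h]; exact kv
    · rw [h]; exact hY2
  · exact kv

theorem geoA (h1 : EndsStmt) (h2 : NNStmt) (h3 : VertexPosStmt) : GeoAStmt := by
  intro G n e O hL hC i1 i2 i3 i4 hO
  have hs := hL.symm
  have R := fun x => hC.root x
  have P := fun x => (hC.root x).pos
  obtain ⟨g12, g13, g23, gg3⟩ := h3 G n e O hL hC i1 i2 i3 hO.v3
  obtain ⟨-, g14, g24, gg4⟩ := h3 G n e O hL hC i1 i2 i4 hO.v4
  obtain ⟨n12, n23, n13, -⟩ := id hO.v3
  obtain ⟨-, n24, n14, -⟩ := id hO.v4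
  have hends := h1 G n e O hL hC i1 i2 i3 i4 hO.ne hO.v3 hO.v4
  simp only at hends
  have hN : ∀ a b : Fin n, a ≠ b → gR G (e a) (e b) = gN (nn G (e a) (e b)) := fun a b hab =>
    (h2 G (e a) (e b) hL (R a) (R b)).2.2.1 (hC.obt a b hab)
  have hS : ∀ a, 0 < sR G O (e a) := fun a => sR_pos (P a) hC.Oneg (hC.neg a)
  have hlt : ∀ a b : Fin n, a ≠ b → 0 < g2 G (e a) (e b) → nn G (e a) (e b) < 4 := by
    intro a b hab hg
    apply lt4_of_gN_lt
    rw [← hN a b hab]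
    exact gR_lt_one (P a) (P b) hg
  have l12 := hlt i1 i2 n12 g12
  have l13 := hlt i1 i3 n13 g13
  have l23 := hlt i2 i3 n23 g23
  have l14 := hlt i1 i4 n14 g14
  have l24 := hlt i2 i4 n24 g24
  have o13 := hO.out i1 i3 n13 g13
  have o23 := hO.out i2 i3 n23 g23
  have o14 := hO.out i1 i4 n14 g14
  have o24 := hO.out i2 i4 n24 g24
  have gr3 := gram3_pos hs (P i1) (P i2) (P i3) gg3
  have gr4 := gram3_pos hs (P i1) (P i2) (P i4) gg4
  obtain ⟨t3, ht3⟩ := (h2 G (e i1) (e i2) hL (R i1) (R i2)).2.2.2 (e i3) (R i3)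
  obtain ⟨t4, ht4⟩ := (h2 G (e i1) (e i2) hL (R i1) (R i2)).2.2.2 (e i4) (R i4)
  rw [hN i1 i2 n12, hN i1 i3 n13, hN i2 i3 n23] at gr3
  rw [hN i1 i2 n12, hN i1 i4 n14, hN i2 i4 n24] at gr4
  rw [hN i1 i3 n13, hN i1 i2 n12] at o13
  rw [hN i2 i3 n23, hN i1 i2 n12] at o23
  rw [hN i1 i4 n14, hN i1 i2 n12] at o14
  rw [hN i2 i4 n24, hN i1 i2 n12] at o24
  rw [hN i3 i4 hO.ne, hN i1 i2 n12, hN i1 i3 n13, hN i2 i3 n23, hN i1 i4 n14, hN i2 i4 n24]
    at hends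
  set N12 := nn G (e i1) (e i2)
  set N13 := nn G (e i1) (e i3)
  set N23 := nn G (e i2) (e i3)
  set N14 := nn G (e i1) (e i4)
  set N24 := nn G (e i2) (e i4)
  have sumlt : ∀ (a b c t : ℕ), t * t = a * b * c →
      0 < 1 - (gN a ^ 2 + gN b ^ 2 + gN c ^ 2 + 2 * gN a * gN b * gN c) → a + b + c + t < 4 := by
    intro a b c t ht h
    have e1 : gN a * gN b * gN c = t / 8 := by
      have e1 : gN a * gN b * gN c = Real.sqrt (a * b * c) / 8 := by
        rw [gN, gN, gN, Real.sqrt_mul (by positivity), Real.sqrt_mul (by positivity)]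
        ring
      have e2 : ((a : ℝ) * b * c) = (t : ℝ) ^ 2 := by
        have := congrArg (fun x : ℕ => (x : ℝ)) ht
        push_cast at this
        rw [← this]
        ring
      rw [e1, e2, Real.sqrt_sq (by positivity)]
    have e3 : 2 * gN a * gN b * gN c = 2 * (gN a * gN b * gN c) := by ring
    rw [e3, e1, gN_sq, gN_sq, gN_sq] at h
    have : (a : ℝ) + b + c + t < 4 := by linarith
    exact_mod_cast this
  have ht3' : t3 * t3 = N12 * N13 * N23 := by rw [← ht3]; ring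
  have ht4' : t4 * t4 = N12 * N14 * N24 := by rw [← ht4]; ring
  have s3 := sumlt _ _ _ t3 ht3' gr3
  have s4 := sumlt _ _ _ t4 ht4' gr4
  set s1 := sR G O (e i1)
  set s2 := sR G O (e i2)
  have hlt1 : gN N12 < 1 := by
    have h1 : gN N12 ^ 2 < 1 := by
      rw [gN_sq]
      have : (N12 : ℝ) < 4 := by exact_mod_cast l12
      linarith
    nlinarith [gN_nonneg N12]
  have y3 := Yf_sq_le l12 l13 l23 ht3' (hS i1) (hS i2) (hS i3) o13 o23
  have y4 := Yf_sq_le l12 l14 l24 ht4' (hS i1) (hS i2) (hS i4) o14 o24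
  have w3 := wf_le l12 ht3' s3
  have w4 := wf_le l12 ht4' s4
  have y30 := Yf_nonneg (gN_nonneg N12) hlt1 (gN_nonneg N13) (gN_nonneg N23) (hS i1).le
    (hS i2).le (hS i3).le
  have y40 := Yf_nonneg (gN_nonneg N12) hlt1 (gN_nonneg N14) (gN_nonneg N24) (hS i1).le
    (hS i2).le (hS i4).le
  set Y3 := Yf (gN N12) (gN N13) (gN N23) (sR G O (e i1)) (sR G O (e i2)) (sR G O (e i3))
  set Y4 := Yf (gN N12) (gN N14) (gN N24) (sR G O (e i1)) (sR G O (e i2)) (sR G O (e i4))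
  have hcf : 0 ≤ cf (gN N12) (gN N13) (gN N23) (gN N14) (gN N24) := by
    have h7 : 0 ≤ 1 - gN N12 ^ 2 := by nlinarith [gN_nonneg N12]
    have := gN_nonneg N12
    have := gN_nonneg N13
    have := gN_nonneg N23
    have := gN_nonneg N14
    have := gN_nonneg N24
    rw [cf]
    positivity
  have hsq3 : Real.sqrt (wf (gN N12) (gN N13) (gN N23) + Y3 ^ 2) ≤
      (sqU (wA N12 N13 N23 + yA N12 N13 N23) : ℝ) / SS := by
    apply le_sqU
    by_cases h : 0 ≤ wf (gN N12) (gN N13) (gN N23) + Y3 ^ 2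
    · rw [Real.sq_sqrt h]
      push_cast
      rw [add_div]
      linarith
    · push Not at h
      rw [Real.sqrt_eq_zero_of_nonpos h.le, zero_pow two_ne_zero]
      have := SS_pos
      positivity
  have hsq4 : Real.sqrt (wf (gN N12) (gN N14) (gN N24) + Y4 ^ 2) ≤
      (sqU (wA N12 N14 N24 + yA N12 N14 N24) : ℝ) / SS := by
    apply le_sqU
    by_cases h : 0 ≤ wf (gN N12) (gN N14) (gN N24) + Y4 ^ 2
    · rw [Real.sq_sqrt h]
      push_cast
      rw [add_div]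
      linarith
    · push Not at h
      rw [Real.sqrt_eq_zero_of_nonpos h.le, zero_pow two_ne_zero]
      have := SS_pos
      positivity
  have hm1 := mul_le_mulU (Real.sqrt_nonneg _) (Real.sqrt_nonneg _) hsq3 hsq4
  have hm2 : Y3 * Y4 ≤ (sqU (mulU (yA N12 N13 N23) (yA N12 N14 N24)) : ℝ) / SS := by
    apply le_sqU
    rw [mul_pow]
    exact mul_le_mulU (sq_nonneg _) (sq_nonneg _) y3 y4
  have hfin : gN (nn G (e i3) (e i4)) ≤
      ((mulU (sqU (wA N12 N13 N23 + yA N12 N13 N23)) (sqU (wA N12 N14 N24 + yA N12 N14 N24)) +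
        sqU (mulU (yA N12 N13 N23) (yA N12 N14 N24)) : ℕ) : ℝ) / SS := by
    rw [hends]
    push_cast
    rw [add_div]
    linarith
  exact nat_of_gN hfin

end Pool.Agent.Refl.H64
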