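import Pool.Agent.Helper64_Refl.Bas

/-!
# The outermost edge (module OUTER)
-/

namespace Pool.Agent.Refl.H64

open Matrix Pool.Agent.Refl

theorem outer (h1 : VertexStmt) (h2 : VertexPosStmt) (h3 : EdgeStmt) : OuterStmt := by
  intro G n e O hL hC
  classical
  obtain ⟨i0, j0, k0, hv⟩ := h1 G n e O hL hC
  have hp := (h2 G n e O hL hC i0 j0 k0 hv).1
  let S : Finset (Fin n × Fin n) :=
    Finset.univ.filter (fun p => p.1 ≠ p.2 ∧ 0 < g2 G (e p.1) (e p.2))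
  have hS : S.Nonempty := ⟨(i0, j0), by simp [S, hv.1, hp]⟩
  obtain ⟨⟨i1, i2⟩, hm, hmax⟩ := S.exists_max_image
    (fun p => Qf (gR G (e p.1) (e p.2)) (sR G O (e p.1)) (sR G O (e p.2))) hS
  simp only [S, Finset.mem_filter, Finset.mem_univ, true_and] at hm
  obtain ⟨k, l, hkl, hk, hl⟩ := h3 G n e O hL hC i1 i2 hm.1 hm.2
  refine ⟨i1, i2, k, l, hkl, hk, hl, ?_⟩
  intro i j hij hpos
  exact hmax (i, j) (by simp [S, hij, hpos])

end Pool.Agent.Refl.H64
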