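import Pool.Agent.Helper23_Refl.StmtB

/-!
# Basic facts on the form (helper64)
-/

namespace Pool.Agent.Refl.H64

open Matrix Pool.Agent.Refl

variable {G : M4}

lemma br_eq_dot (x y : R4) :
    br G x y = x ⬝ᵥ (G.map (Int.cast : ℤ → ℝ)).mulVec y := by
  simp only [br, dotProduct, Matrix.mulVec, Matrix.map_apply, Finset.mul_sum]
  refine Finset.sum_congr rfl fun i _ => Finset.sum_congr rfl fun j _ => ?_
  ring

lemma br_add_left (x y z : R4) : br G (x + y) z = br G x z + br G y z := by
  rw [br_eq_dot, br_eq_dot, br_eq_dot, add_dotProduct]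

lemma br_smul_left (c : ℝ) (x z : R4) : br G (c • x) z = c * br G x z := by
  rw [br_eq_dot, br_eq_dot, smul_dotProduct, smul_eq_mul]

lemma br_add_right (x y z : R4) : br G x (y + z) = br G x y + br G x z := by
  rw [br_eq_dot, br_eq_dot, br_eq_dot, mulVec_add, dotProduct_add]

lemma br_smul_right (c : ℝ) (x z : R4) : br G x (c • z) = c * br G x z := by
  rw [br_eq_dot, br_eq_dot, mulVec_smul, dotProduct_smul, smul_eq_mul]

lemma br_neg_left (x z : R4) : br G (-x) z = -br G x z := by
  have := br_smul_left (G := G) (-1) x z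
  simpa using this

lemma br_neg_right (x z : R4) : br G x (-z) = -br G x z := by
  have := br_smul_right (G := G) (-1) x z
  simpa using this

lemma br_sub_left (x y z : R4) : br G (x - y) z = br G x z - br G y z := by
  rw [sub_eq_add_neg, br_add_left, br_neg_left, sub_eq_add_neg]

lemma br_sub_right (x y z : R4) : br G x (y - z) = br G x y - br G x z := by
  rw [sub_eq_add_neg, br_add_right, br_neg_right, sub_eq_add_neg]

lemma br_zero_left (z : R4) : br G 0 z = 0 := by
  simp [br]

lemma br_zero_right (z : R4) : br G z 0 = 0 := by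
  simp [br]

lemma br_comm (hG : G.transpose = G) (x y : R4) : br G x y = br G y x := by
  simp only [br]
  rw [Finset.sum_comm]
  refine Finset.sum_congr rfl fun i _ => Finset.sum_congr rfl fun j _ => ?_
  have : G j i = G i j := by
    conv_lhs => rw [← hG]
    rfl
  rw [this]
  ring

lemma bz_comm (hG : G.transpose = G) (x y : Z4) : bz G x y = bz G y x := by
  simp only [bz]
  rw [Finset.sum_comm]
  refine Finset.sum_congr rfl fun i _ => Finset.sum_congr rfl fun j _ => ?_
  have : G j i = G i j := by
    conv_lhs => rw [← hG]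
    rfl
  rw [this]
  ring

lemma br_up (x y : Z4) : br G (up x) (up y) = (bz G x y : ℝ) := by
  simp [br, bz, up]

/-- coordinates in which the form is `u0 v0 + u1 v1 + u2 v2 - u3 v3` -/
lemma exists_coord (h : Sig31 G) : ∃ T : R4 → R4, (∀ x y, T (x + y) = T x + T y) ∧
    (∀ (c : ℝ) x, T (c • x) = c • T x) ∧ (∀ x, T x = 0 → x = 0) ∧
    ∀ x y, br G x y = T x 0 * T y 0 + T x 1 * T y 1 + T x 2 * T y 2 - T x 3 * T y 3 := by
  obtain ⟨P, hP, hD⟩ := h
  refine ⟨fun x => P⁻¹.mulVec x, fun x y => mulVec_add _ _ _, fun c x => mulVec_smul _ _ _, ?_, ?_⟩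
  · intro x hx
    have h1 : P.mulVec (P⁻¹.mulVec x) = x := by
      rw [mulVec_mulVec, Matrix.mul_nonsing_inv P hP, one_mulVec]
    have hx' : P⁻¹.mulVec x = 0 := hx
    rw [← h1, hx', mulVec_zero]
  · intro x y
    have h1 : ∀ x : R4, P.mulVec (P⁻¹.mulVec x) = x := by
      intro x
      rw [mulVec_mulVec, Matrix.mul_nonsing_inv P hP, one_mulVec]
    have h2 : br G x y = (P⁻¹.mulVec x) ⬝ᵥ
        (P.transpose * G.map (Int.cast : ℤ → ℝ) * P).mulVec (P⁻¹.mulVec y) := by
      rw [br_eq_dot]
      conv_lhs => rw [← h1 x, ← h1 y]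
      rw [← mulVec_mulVec, ← mulVec_mulVec, dotProduct_mulVec (P⁻¹.mulVec x),
        vecMul_transpose]
    rw [h2, hD]
    simp only [dotProduct, Fin.sum_univ_four, mulVec_diagonal]
    simp
    ring

/-- a vector orthogonal to a timelike vector is spacelike -/
lemma pos_of_orth (h : Sig31 G) {O x : R4} (hO : br G O O < 0) (hx : br G x O = 0)
    (hx0 : x ≠ 0) : 0 < br G x x := by
  obtain ⟨T, _, _, hT0, hT⟩ := exists_coord h
  rw [hT] at hO hx ⊢
  have hTx : T x ≠ 0 := fun h' => hx0 (hT0 x h')
  set a := T x 0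
  set b := T x 1
  set c := T x 2
  set d := T x 3
  set p := T O 0
  set q := T O 1
  set r := T O 2
  set s := T O 3
  have hs : p * p + q * q + r * r < s * s := by linarith
  have hds : d * s = a * p + b * q + c * r := by linarith
  have hCS : (a * p + b * q + c * r) ^ 2 ≤ (a * a + b * b + c * c) * (p * p + q * q + r * r) := by
    nlinarith [sq_nonneg (a * q - b * p), sq_nonneg (a * r - c * p), sq_nonneg (b * r - c * q)]
  by_contra hcon
  push Not at hcon
  have h1 : a * a + b * b + c * c ≤ d * d := by linarith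
  have hs0 : 0 < s * s := lt_of_le_of_lt
    (add_nonneg (add_nonneg (mul_self_nonneg p) (mul_self_nonneg q)) (mul_self_nonneg r)) hs
  by_cases hd : a * a + b * b + c * c = 0
  · have ha : a = 0 := by nlinarith [mul_self_nonneg a, mul_self_nonneg b, mul_self_nonneg c]
    have hb : b = 0 := by nlinarith [mul_self_nonneg a, mul_self_nonneg b, mul_self_nonneg c]
    have hc : c = 0 := by nlinarith [mul_self_nonneg a, mul_self_nonneg b, mul_self_nonneg c]
    have hd0 : d = 0 := by
      have : d * s = 0 := by rw [hds, ha, hb, hc]; ring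
      rcases mul_eq_zero.1 this with h' | h'
      · exact h'
      · rw [h'] at hs0; simp at hs0
    apply hTx
    ext i
    fin_cases i
    · exact ha
    · exact hb
    · exact hc
    · exact hd0
  · have hpos : 0 < a * a + b * b + c * c :=
      lt_of_le_of_ne
        (add_nonneg (add_nonneg (mul_self_nonneg a) (mul_self_nonneg b)) (mul_self_nonneg c))
        (Ne.symm hd)
    have h2 : (d * s) ^ 2 < (a * a + b * b + c * c) * (s * s) := by
      rw [hds]
      calc _ ≤ _ := hCS
        _ < _ := mul_lt_mul_of_pos_left hs hpos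
    have h3 : (a * a + b * b + c * c) * (s * s) ≤ (d * d) * (s * s) :=
      mul_le_mul_of_nonneg_right h1 hs0.le
    nlinarith

lemma det_neg (h : Sig31 G) : G.det < 0 := by
  obtain ⟨P, hP, hD⟩ := h
  have h1 : (P.transpose * G.map (Int.cast : ℤ → ℝ) * P).det = -1 := by
    rw [hD, det_diagonal, Fin.prod_univ_four]
    simp
  rw [det_mul, det_mul, det_transpose] at h1
  have h2 : (G.map (Int.cast : ℤ → ℝ)).det = (G.det : ℝ) := by
    have := (Int.castRingHom ℝ).map_det G
    simpa [RingHom.mapMatrix_apply] using this.symm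
  rw [h2] at h1
  have h3 : (G.det : ℝ) < 0 := by
    by_contra hcon
    push Not at hcon
    have : 0 ≤ P.det * (G.det : ℝ) * P.det := by nlinarith [mul_self_nonneg P.det]
    linarith
  exact_mod_cast h3

/-- a nonzero vector of the cone is on the side of `O` -/
lemma Cham.side {n : ℕ} {e : Fin n → Z4} {O : R4} (hL : Lat G) (hC : Cham G n e O) (i : Fin n)
    {V : R4} (hV0 : V ≠ 0) (hV : ∀ m, br G V (up (e m)) ≤ 0) : br G V O < 0 := by
  obtain ⟨c, hc, hcpt⟩ := hC.cpt
  have hsym := br_comm hL.symm
  by_contra hcon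
  push Not at hcon
  rcases eq_or_lt_of_le hcon with h0 | hpos
  · have h1 := hcpt V hV
    rw [← h0] at h1
    have h2 := pos_of_orth hL.sig hC.Oneg h0.symm hV0
    nlinarith
  · set x : R4 := (-(br G O O)) • V + (br G V O) • O with hx
    have hxK : ∀ m, br G x (up (e m)) < 0 := by
      intro m
      rw [hx, br_add_left, br_smul_left, br_smul_left]
      have h1 := hV m
      have h2 := hC.neg m
      have h3 := hC.Oneg
      nlinarith
    have hxO : br G x O = 0 := by
      rw [hx, br_add_left, br_smul_left, br_smul_left]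
      ring
    have hx0 : x ≠ 0 := by
      intro h'
      have := hxK i
      rw [h', br_zero_left] at this
      exact lt_irrefl _ this
    have h1 := hcpt x (fun m => (hxK m).le)
    rw [hxO] at h1
    have h2 := pos_of_orth hL.sig hC.Oneg hxO hx0
    nlinarith

/-- five vectors in `R^4` are dependent -/
lemma dep5 (v : Fin 5 → R4) : ∃ c : Fin 5 → ℝ, c ≠ 0 ∧ ∑ i, c i • v i = 0 := by
  have h : ¬ LinearIndependent ℝ v := by
    intro h
    have := h.fintype_card_le_finrank
    simp at this
  rw [Fintype.not_linearIndependent_iff] at h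
  obtain ⟨c, hc, i, hi⟩ := h
  exact ⟨c, fun h' => hi (by rw [h']; rfl), hc⟩

/-- there is a nonzero vector orthogonal to three given ones -/
lemma exists_orth3 (a b c : R4) : ∃ w : R4, w ≠ 0 ∧ br G w a = 0 ∧ br G w b = 0 ∧
    br G w c = 0 := by
  let f : R4 →ₗ[ℝ] (Fin 3 → ℝ) :=
    { toFun := fun x => ![br G x a, br G x b, br G x c]
      map_add' := by
        intro x y
        ext i
        fin_cases i <;> simp [br_add_left]
      map_smul' := by
        intro r x
        ext i
        fin_cases i <;> simp [br_smul_left] }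
  have h : ¬ Function.Injective f := by
    intro h
    have := LinearMap.finrank_le_finrank_of_injective h
    simp at this
  rw [← LinearMap.ker_eq_bot] at h
  obtain ⟨w, hw, hw0⟩ := Submodule.exists_mem_ne_zero_of_ne_bot h
  have hf : f w = 0 := hw
  refine ⟨w, hw0, ?_, ?_, ?_⟩
  · simpa [f] using congrFun hf 0
  · simpa [f] using congrFun hf 1
  · simpa [f] using congrFun hf 2

end Pool.Agent.Refl.H64
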